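import Mathlib

set_option autoImplicit false

/-!
# Veblen points of Steiner systems `S(n, q + 1, 2)` and the planes through them
-/

namespace Pool.Agent.V11100.VB

open Finset

variable {V : Type} [DecidableEq V]

/-- every block has `q + 1` points and any two points are in exactly one block -/
structure LS (B : Finset (Finset V)) (q : ℕ) : Prop where
  size : ∀ b ∈ B, b.card = q + 1
  two : ∀ R : Finset V, R.card = 2 → ∃! b, b ∈ B ∧ R ⊆ b
  hq : 2 ≤ q

/-- If two different blocks through `p` contain `a`, `b` and `c`, `d`, then the block through `a`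
and `c` meets the block through `b` and `d`. -/
def Veblen (B : Finset (Finset V)) (p : V) : Prop :=
  ∀ l ∈ B, ∀ m ∈ B, l ≠ m → p ∈ l → p ∈ m →
    ∀ a ∈ l, ∀ b ∈ l, ∀ c ∈ m, ∀ d ∈ m, a ≠ p → b ≠ p → c ≠ p → d ≠ p →
      ∀ g ∈ B, ∀ h ∈ B, a ∈ g → c ∈ g → b ∈ h → d ∈ h → ∃ w, w ∈ g ∧ w ∈ h

open scoped Classical in
/-- the block through `x` and `y` -/
noncomputable def bl (B : Finset (Finset V)) (x y : V) : Finset V :=
  if h : ∃ b ∈ B, x ∈ b ∧ y ∈ b then h.choose else ∅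

namespace LS

variable {B : Finset (Finset V)} {q : ℕ} (H : LS B q)
include H

theorem ex {x y : V} (h : x ≠ y) : ∃ b ∈ B, x ∈ b ∧ y ∈ b := by
  obtain ⟨b, ⟨hb, hs⟩, _⟩ := H.two {x, y} (card_pair h)
  exact ⟨b, hb, hs (by simp), hs (by simp)⟩

theorem un {x y : V} (h : x ≠ y) {b b' : Finset V} (hb : b ∈ B) (hb' : b' ∈ B) (h1 : x ∈ b)
    (h2 : y ∈ b) (h3 : x ∈ b') (h4 : y ∈ b') : b = b' := by
  obtain ⟨c, _, hc⟩ := H.two {x, y} (card_pair h)
  have e1 := hc b ⟨hb, by
    intro z hz; simp only [mem_insert, mem_singleton] at hz; rcases hz with rfl | rfl <;> assumption⟩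
  have e2 := hc b' ⟨hb', by
    intro z hz; simp only [mem_insert, mem_singleton] at hz; rcases hz with rfl | rfl <;> assumption⟩
  rw [e1, e2]

/-- two different blocks have at most one common point -/
theorem pt {x y : V} {b b' : Finset V} (hb : b ∈ B) (hb' : b' ∈ B) (hne : b ≠ b') (h1 : x ∈ b)
    (h2 : x ∈ b') (h3 : y ∈ b) (h4 : y ∈ b') : x = y := by
  by_contra h
  exact hne (H.un h hb hb' h1 h3 h2 h4)

theorem spec {x y : V} (h : x ≠ y) : bl B x y ∈ B ∧ x ∈ bl B x y ∧ y ∈ bl B x y := by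
  have hx := H.ex h
  unfold bl
  rw [dif_pos hx]
  exact hx.choose_spec

theorem bB {x y : V} (h : x ≠ y) : bl B x y ∈ B := (H.spec h).1
theorem b1 {x y : V} (h : x ≠ y) : x ∈ bl B x y := (H.spec h).2.1
theorem b2 {x y : V} (h : x ≠ y) : y ∈ bl B x y := (H.spec h).2.2

theorem bl_eq {x y : V} (h : x ≠ y) {b : Finset V} (hb : b ∈ B) (hx : x ∈ b) (hy : y ∈ b) :
    bl B x y = b := H.un h (H.bB h) hb (H.b1 h) (H.b2 h) hx hy

theorem two_pts {b : Finset V} (hb : b ∈ B) (x : V) : ∃ y ∈ b, y ≠ x := by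
  by_contra hc
  push Not at hc
  have : b ⊆ {x} := fun y hy => mem_singleton.2 (hc y hy)
  have := card_le_card this
  rw [card_singleton, H.size b hb] at this
  have := H.hq
  omega

theorem three_pts {b : Finset V} (hb : b ∈ B) (x y : V) : ∃ z ∈ b, z ≠ x ∧ z ≠ y := by
  by_contra hc
  push Not at hc
  have : b ⊆ {x, y} := by
    intro z hz
    rw [mem_insert, mem_singleton]
    by_cases h : z = x
    · exact Or.inl h
    · exact Or.inr (hc z hz h)
  have := (card_le_card this).trans card_le_two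
  rw [H.size b hb] at this
  have := H.hq
  omega

end LS

/-- the plane of a point and a block -/
noncomputable def pl (B : Finset (Finset V)) (p : V) (L : Finset V) : Finset V :=
  L.biUnion fun y => bl B p y

namespace LS

variable {B : Finset (Finset V)} {q : ℕ} (H : LS B q)
include H

theorem ne_of {p y : V} {L : Finset V} (hp : p ∉ L) (hy : y ∈ L) : p ≠ y := fun h => hp (h ▸ hy)

theorem mem_pl {p : V} {L : Finset V} (hp : p ∉ L) {x : V} (hx : x ≠ p) :
    x ∈ pl B p L ↔ ∃ y ∈ L, y ∈ bl B p x := by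
  unfold pl
  rw [mem_biUnion]
  constructor
  · rintro ⟨y, hy, h⟩
    have hpy := H.ne_of hp hy
    refine ⟨y, hy, ?_⟩
    rw [H.bl_eq hx.symm (H.bB hpy) (H.b1 hpy) h]
    exact H.b2 hpy
  · rintro ⟨y, hy, h⟩
    have hpy := H.ne_of hp hy
    refine ⟨y, hy, ?_⟩
    rw [H.bl_eq hpy (H.bB hx.symm) (H.b1 hx.symm) h]
    exact H.b2 hx.symm

theorem p_mem {p : V} {L : Finset V} (hL : L ∈ B) (hp : p ∉ L) : p ∈ pl B p L := by
  obtain ⟨y, hy, _⟩ := H.two_pts hL p
  unfold pl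
  rw [mem_biUnion]
  exact ⟨y, hy, H.b1 (H.ne_of hp hy)⟩

theorem L_sub {p : V} {L : Finset V} (hp : p ∉ L) : L ⊆ pl B p L := by
  intro y hy
  unfold pl
  rw [mem_biUnion]
  exact ⟨y, hy, H.b2 (H.ne_of hp hy)⟩

/-- a block of the plane of `p` and `L` through `p` -/
theorem ray_sub {p : V} {L : Finset V} (hp : p ∉ L) {u : V} (hu : u ∈ pl B p L)
    (hup : u ≠ p) : bl B p u ⊆ pl B p L := by
  obtain ⟨y, hy, h⟩ := (H.mem_pl hp hup).1 hu
  intro x hx
  unfold pl
  rw [mem_biUnion]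
  refine ⟨y, hy, ?_⟩
  rw [H.bl_eq (H.ne_of hp hy) (H.bB hup.symm) (H.b1 hup.symm) h]
  exact hx

theorem meetL {p : V} {L : Finset V} (hV : Veblen B p) (hL : L ∈ B) (hp : p ∉ L) {u v : V}
    (hu : u ∈ pl B p L) (hv : v ∈ pl B p L) {g : Finset V} (hg : g ∈ B) (hug : u ∈ g)
    (hvg : v ∈ g) (huv : u ≠ v) (hpg : p ∉ g) : ∃ w ∈ L, w ∈ g := by
  have hup : u ≠ p := fun h => hpg (h ▸ hug)
  have hvp : v ≠ p := fun h => hpg (h ▸ hvg)
  obtain ⟨y, hy, h1⟩ := (H.mem_pl hp hup).1 hu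
  obtain ⟨y', hy', h2⟩ := (H.mem_pl hp hvp).1 hv
  have hne : bl B p u ≠ bl B p v := by
    intro h
    have e : g = bl B p u := H.un huv hg (H.bB hup.symm) hug hvg (H.b2 hup.symm)
      (h ▸ H.b2 hvp.symm)
    exact hpg (e ▸ H.b1 hup.symm)
  obtain ⟨w, hw1, hw2⟩ := hV _ (H.bB hup.symm) _ (H.bB hvp.symm) hne (H.b1 hup.symm)
    (H.b1 hvp.symm) u (H.b2 hup.symm) y h1 v (H.b2 hvp.symm) y' h2 hup (H.ne_of hp hy).symm hvp
    (H.ne_of hp hy').symm g hg L hL hug hvg hy hy'
  exact ⟨w, hw2, hw1⟩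

theorem star_card {s : V} {L : Finset V} (hL : L ∈ B) (hs : s ∉ L) (T : Finset V) (hT : T ⊆ L) :
    (T.biUnion fun w => (bl B s w).erase s).card = T.card * q := by
  rw [card_biUnion]
  · rw [← smul_eq_mul, ← sum_const]
    refine sum_congr rfl fun w hw => ?_
    have h := H.ne_of hs (hT hw)
    rw [card_erase_of_mem (H.b1 h), H.size _ (H.bB h)]
    rfl
  · intro w hw w' hw' hne
    rw [Function.onFun, disjoint_left]
    intro x hx hx'
    rw [mem_erase] at hx hx'
    have h := H.ne_of hs (hT hw)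
    have h' := H.ne_of hs (hT hw')
    have e : bl B s w = bl B s w' := H.un hx.1.symm (H.bB h) (H.bB h') (H.b1 h) hx.2 (H.b1 h') hx'.2
    have e2 : L = bl B s w := H.un hne hL (H.bB h) (hT hw) (hT hw') (H.b2 h) (e ▸ H.b2 h')
    exact hs (e2 ▸ H.b1 h)

theorem closed {p : V} {L : Finset V} (hV : Veblen B p) (hL : L ∈ B) (hp : p ∉ L) {u v : V}
    (hu : u ∈ pl B p L) (hv : v ∈ pl B p L) {g : Finset V} (hg : g ∈ B) (hug : u ∈ g)
    (hvg : v ∈ g) (huv : u ≠ v) : g ⊆ pl B p L := by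
  by_cases hpg : p ∈ g
  · by_cases hup : u = p
    · have hvp : v ≠ p := fun h => huv (hup.trans h.symm)
      rw [← H.bl_eq hvp.symm hg hpg hvg]
      exact H.ray_sub hp hv hvp
    · rw [← H.bl_eq (Ne.symm hup) hg hpg hug]
      exact H.ray_sub hp hu hup
  by_cases hgL : g = L
  · rw [hgL]; exact H.L_sub hp
  -- a point of `g` in the plane outside `L`
  have key : ∀ u v : V, u ∈ pl B p L → v ∈ pl B p L → u ∈ g → v ∈ g → u ≠ v → u ∉ L →
      g ⊆ pl B p L := by
    intro u v hu hv hug hvg huv huL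
    have hup : u ≠ p := fun h => hpg (h ▸ hug)
    obtain ⟨y, hy, h1⟩ := (H.mem_pl hp hup).1 hu
    have hsub : ((L.erase y).biUnion fun w => (bl B p w).erase p) ⊆
        ((L.erase y).biUnion fun w => (bl B u w).erase u) := by
      intro x hx
      rw [mem_biUnion] at hx ⊢
      obtain ⟨w, hw, hx⟩ := hx
      rw [mem_erase] at hw hx
      have hpw := H.ne_of hp hw.2
      have hxp : x ∈ pl B p L := by unfold pl; rw [mem_biUnion]; exact ⟨w, hw.2, hx.2⟩
      have hray : bl B p w ≠ bl B p u := by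
        intro h
        have : L = bl B p u := H.un hw.1 hL (H.bB hup.symm) hw.2 hy (h ▸ H.b2 hpw) h1
        exact hp (this ▸ H.b1 hup.symm)
      have hux : u ≠ x := by
        rintro rfl
        exact hray (H.un hx.1.symm (H.bB hpw) (H.bB hup.symm) (H.b1 hpw) hx.2 (H.b1 hup.symm)
          (H.b2 hup.symm))
      have hpux : p ∉ bl B u x := by
        intro h
        have e1 : bl B u x = bl B p u := H.un hup (H.bB hux) (H.bB hup.symm) (H.b1 hux) h
          (H.b2 hup.symm) (H.b1 hup.symm)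
        have e2 : bl B u x = bl B p w := H.un hx.1.symm (H.bB hux) (H.bB hpw) h (H.b2 hux)
          (H.b1 hpw) hx.2
        exact hray (e2.symm.trans e1)
      obtain ⟨w', hw', hw2⟩ := H.meetL hV hL hp hu hxp (H.bB hux) (H.b1 hux) (H.b2 hux) hux hpux
      have hw'y : w' ≠ y := by
        rintro rfl
        have huw' : u ≠ w' := fun h => huL (h ▸ hw')
        have e1 : bl B u x = bl B p u := H.un huw' (H.bB hux) (H.bB hup.symm) (H.b1 hux) hw2
          (H.b2 hup.symm) h1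
        exact hpux (e1 ▸ H.b1 hup.symm)
      have huw' : u ≠ w' := fun h => huL (h ▸ hw')
      refine ⟨w', mem_erase.2 ⟨hw'y, hw'⟩, mem_erase.2 ⟨hux.symm, ?_⟩⟩
      rw [H.bl_eq huw' (H.bB hux) (H.b1 hux) hw2]
      exact H.b2 hux
    have hcard : ((L.erase y).biUnion fun w => (bl B u w).erase u).card ≤
        ((L.erase y).biUnion fun w => (bl B p w).erase p).card := by
      rw [H.star_card hL huL _ (erase_subset _ _), H.star_card hL hp _ (erase_subset _ _)]
    have heq := eq_of_subset_of_card_le hsub hcard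
    obtain ⟨w, hw, hwg⟩ := H.meetL hV hL hp hu hv hg hug hvg huv hpg
    have huw : u ≠ w := fun h => huL (h ▸ hw)
    have hwy : w ≠ y := by
      rintro rfl
      have e1 : g = bl B p u := H.un huw hg (H.bB hup.symm) hug hwg (H.b2 hup.symm) h1
      exact hpg (e1 ▸ H.b1 hup.symm)
    intro x hx
    by_cases hxu : x = u
    · rw [hxu]; exact hu
    have hx2 : x ∈ ((L.erase y).biUnion fun w => (bl B u w).erase u) := by
      rw [mem_biUnion]
      refine ⟨w, mem_erase.2 ⟨hwy, hw⟩, mem_erase.2 ⟨hxu, ?_⟩⟩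
      rw [H.bl_eq huw hg hug hwg]
      exact hx
    rw [← heq, mem_biUnion] at hx2
    obtain ⟨w', hw', hx3⟩ := hx2
    unfold pl
    rw [mem_biUnion]
    exact ⟨w', mem_of_mem_erase hw', mem_of_mem_erase hx3⟩
  by_cases huL : u ∈ L
  · have hvL : v ∉ L := fun h => hgL (H.un huv hg hL hug hvg huL h)
    exact key v u hv hu hvg hug huv.symm hvL
  · exact key u v hu hv hug hvg huv huL

theorem card_pl {p : V} {L : Finset V} (hL : L ∈ B) (hp : p ∉ L) :
    (pl B p L).card = (q + 1) * q + 1 := by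
  have h : pl B p L = insert p (L.biUnion fun w => (bl B p w).erase p) := by
    ext x
    by_cases hx : x = p
    · subst hx
      simp [H.p_mem hL hp]
    · unfold pl
      simp [hx]
  rw [h, card_insert_of_notMem (by simp), H.star_card hL hp L (Subset.refl _), H.size L hL]

theorem pl_eq {p : V} {L : Finset V} (hV : Veblen B p) (hL : L ∈ B) (hp : p ∉ L)
    {M : Finset V} (hM : M ∈ B) (hMp : p ∉ M) (hs : M ⊆ pl B p L) : pl B p M = pl B p L := by
  refine eq_of_subset_of_card_le ?_ (by rw [H.card_pl hL hp, H.card_pl hM hMp])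
  intro x hx
  unfold pl at hx
  rw [mem_biUnion] at hx
  obtain ⟨y, hy, h⟩ := hx
  have hpy := H.ne_of hMp hy
  exact H.closed hV hL hp (H.p_mem hL hp) (hs hy) (H.bB hpy) (H.b1 hpy) (H.b2 hpy) hpy h

theorem meet2 {p : V} {L : Finset V} (hV : Veblen B p) (hL : L ∈ B) (hp : p ∉ L)
    {g h : Finset V} (hg : g ∈ B) (hh : h ∈ B) (hgs : g ⊆ pl B p L) (hhs : h ⊆ pl B p L) :
    ∃ w, w ∈ g ∧ w ∈ h := by
  have key : ∀ g h : Finset V, g ∈ B → h ∈ B → g ⊆ pl B p L → h ⊆ pl B p L → p ∈ g → p ∉ h →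
      ∃ w, w ∈ g ∧ w ∈ h := by
    intro g h hg hh hgs hhs hpg hph
    obtain ⟨u, hu, hup⟩ := H.two_pts hg p
    have h1 : u ∈ pl B p h := by rw [H.pl_eq hV hL hp hh hph hhs]; exact hgs hu
    obtain ⟨y, hy, h2⟩ := (H.mem_pl hph hup).1 h1
    rw [H.bl_eq hup.symm hg hpg hu] at h2
    exact ⟨y, h2, hy⟩
  by_cases hpg : p ∈ g
  · by_cases hph : p ∈ h
    · exact ⟨p, hpg, hph⟩
    · exact key g h hg hh hgs hhs hpg hph
  · by_cases hph : p ∈ h
    · obtain ⟨w, h1, h2⟩ := key h g hh hg hhs hgs hph hpg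
      exact ⟨w, h2, h1⟩
    · obtain ⟨u, hu, _⟩ := H.two_pts hh p
      obtain ⟨v, hv, hvu⟩ := H.two_pts hh u
      have e := H.pl_eq hV hL hp hg hpg hgs
      obtain ⟨w, h1, h2⟩ := H.meetL hV hg hpg (e ▸ hhs hu) (e ▸ hhs hv) hh hu hv hvu.symm hph
      exact ⟨w, h1, h2⟩

end LS

end Pool.Agent.V11100.VB
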