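import Mathlib
import Pool.Agent.V11100.VB.Base

set_option autoImplicit false

/-!
# A point on a block whose other points are Veblen points is a Veblen point
-/

namespace Pool.Agent.V11100.VB

open Finset

variable {V : Type} [DecidableEq V]

namespace LS

variable {B : Finset (Finset V)} {q : ℕ} (H : LS B q)
include H

/-- the case in which one of the points is a Veblen point -/
theorem easy {r : V} {l m : Finset V} (hl : l ∈ B) (hm : m ∈ B) (hlm : l ≠ m) (hrl : r ∈ l)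
    (hrm : r ∈ m) {a b c d : V} (ha : a ∈ l) (hb : b ∈ l) (hc : c ∈ m) (hd : d ∈ m) (har : a ≠ r)
    (hbr : b ≠ r) {g h : Finset V} (hg : g ∈ B) (hh : h ∈ B)
    (hag : a ∈ g) (hcg : c ∈ g) (hbh : b ∈ h) (hdh : d ∈ h) (hV : Veblen B a) :
    ∃ w, w ∈ g ∧ w ∈ h := by
  have ham : a ∉ m := fun h => har (H.pt hl hm hlm ha h hrl hrm)
  have hac : a ≠ c := fun h => ham (h ▸ hc)
  have hbd : b ≠ d := fun h => hbr (H.pt hl hm hlm hb (h ▸ hd) hrl hrm)
  have hp := H.p_mem hm ham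
  have hs := H.L_sub (B := B) (L := m) ham
  have h1 : l ⊆ pl B a m := H.closed hV hm ham hp (hs hrm) hl ha hrl har
  have h2 : g ⊆ pl B a m := H.closed hV hm ham hp (hs hc) hg hag hcg hac
  have h3 : h ⊆ pl B a m := H.closed hV hm ham (h1 hb) (hs hd) hh hbh hdh hbd
  exact H.meet2 hV hm ham hg hh h2 h3

theorem veblen_of_block {r : V} {k : Finset V} (hk : k ∈ B) (hr : r ∈ k)
    (hV : ∀ x ∈ k, x ≠ r → Veblen B x) : Veblen B r := by
  intro l hl m hm hlm hrl hrm a ha b hb c hc d hd har hbr hcr hdr g hg h hh hag hcg hbh hdh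
  by_cases hab : a = b
  · exact ⟨a, hag, hab ▸ hbh⟩
  by_cases hcd : c = d
  · exact ⟨c, hcg, hcd ▸ hdh⟩
  by_cases hkl : k = l
  · exact H.easy hl hm hlm hrl hrm ha hb hc hd har hbr hg hh hag hcg hbh hdh (hV a (hkl ▸ ha) har)
  by_cases hkm : k = m
  · exact H.easy hm hl hlm.symm hrm hrl hc hd ha hb hcr hdr hg hh hcg hag hdh hbh
      (hV c (hkm ▸ hc) hcr)
  have off : ∀ x, x ∈ l → x ≠ r → x ∉ k := fun x hx hxr hxk => hxr (H.pt hk hl hkl hxk hx hr hrl)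
  have off' : ∀ x, x ∈ m → x ≠ r → x ∉ k := fun x hx hxr hxk => hxr (H.pt hk hm hkm hxk hx hr hrm)
  have hac : a ≠ c := fun e => har (H.pt hl hm hlm ha (e ▸ hc) hrl hrm)
  have hbd : b ≠ d := fun e => hbr (H.pt hl hm hlm hb (e ▸ hd) hrl hrm)
  have hkh : k ≠ h := fun e => off b hb hbr (e ▸ hbh)
  obtain ⟨r', hr'k, hr'r, hr'h⟩ : ∃ r' ∈ k, r' ≠ r ∧ r' ∉ h := by
    by_cases hy : ∃ y, y ∈ k ∧ y ∈ h
    · obtain ⟨y, hy1, hy2⟩ := hy
      obtain ⟨z, hz, h1, h2⟩ := H.three_pts hk r y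
      exact ⟨z, hz, h1, fun e => h2 (H.pt hk hh hkh hz e hy1 hy2)⟩
    · obtain ⟨z, hz, h1⟩ := H.two_pts hk r
      exact ⟨z, hz, h1, fun e => hy ⟨z, hz, e⟩⟩
  have vr' := hV r' hr'k hr'r
  have hpX := H.p_mem hh hr'h
  have hsX := H.L_sub (B := B) (L := h) hr'h
  have cX := fun {u v : V} (hu : u ∈ pl B r' h) (hv : v ∈ pl B r' h) {j : Finset V} (hj : j ∈ B)
    (h1 : u ∈ j) (h2 : v ∈ j) (h3 : u ≠ v) => H.closed vr' hh hr'h hu hv hj h1 h2 h3
  have hbX : b ∈ pl B r' h := hsX hbh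
  have hdX : d ∈ pl B r' h := hsX hdh
  by_cases hrX : r ∈ pl B r' h
  · have h1 := cX hrX hbX hl hrl hb hbr.symm
    have h2 := cX hrX hdX hm hrm hd hdr.symm
    exact H.meet2 vr' hh hr'h hg hh (cX (h1 ha) (h2 hc) hg hag hcg hac) hsX
  have haX : a ∉ pl B r' h := fun e => hrX (cX e hbX hl ha hb hab hrl)
  have hcX : c ∉ pl B r' h := fun e => hrX (cX e hdX hm hc hd hcd hrm)
  have hkX : ∀ z ∈ k, z ≠ r' → z ∉ pl B r' h := fun z hz hzr e => hrX (cX e hpX hk hz hr'k hzr hr)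
  have hr'b : r' ≠ b := fun e => off b hb hbr (e ▸ hr'k)
  have hr'd : r' ≠ d := fun e => off' d hd hdr (e ▸ hr'k)
  have hr'l : r' ∉ l := fun e => hr'r (H.pt hk hl hkl hr'k e hr hrl)
  have hr'm : r' ∉ m := fun e => hr'r (H.pt hk hm hkm hr'k e hr hrm)
  set l' := bl B r' b with hl'
  set m' := bl B r' d with hm'
  have l'B : l' ∈ B := H.bB hr'b
  have m'B : m' ∈ B := H.bB hr'd
  have r'l' : r' ∈ l' := H.b1 hr'b
  have r'm' : r' ∈ m' := H.b1 hr'd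
  have bl' : b ∈ l' := H.b2 hr'b
  have dm' : d ∈ m' := H.b2 hr'd
  have l'X : l' ⊆ pl B r' h := cX hpX hbX l'B r'l' bl' hr'b
  have m'X : m' ⊆ pl B r' h := cX hpX hdX m'B r'm' dm' hr'd
  have hl'm' : l' ≠ m' := by
    intro e
    have : h = l' := H.un hbd hh l'B hbh hdh bl' (e ▸ dm')
    exact hr'h (this ▸ r'l')
  have hpE := H.p_mem hl hr'l
  have hsE := H.L_sub (B := B) (L := l) hr'l
  have cE := fun {u v : V} (hu : u ∈ pl B r' l) (hv : v ∈ pl B r' l) {j : Finset V} (hj : j ∈ B)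
    (h1 : u ∈ j) (h2 : v ∈ j) (h3 : u ≠ v) => H.closed vr' hl hr'l hu hv hj h1 h2 h3
  have hpF := H.p_mem hm hr'm
  have hsF := H.L_sub (B := B) (L := m) hr'm
  have cF := fun {u v : V} (hu : u ∈ pl B r' m) (hv : v ∈ pl B r' m) {j : Finset V} (hj : j ∈ B)
    (h1 : u ∈ j) (h2 : v ∈ j) (h3 : u ≠ v) => H.closed vr' hm hr'm hu hv hj h1 h2 h3
  have kE : k ⊆ pl B r' l := cE hpE (hsE hrl) hk hr'k hr hr'r
  have kF : k ⊆ pl B r' m := cF hpF (hsF hrm) hk hr'k hr hr'r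
  have l'E : l' ⊆ pl B r' l := cE hpE (hsE hb) l'B r'l' bl' hr'b
  have m'F : m' ⊆ pl B r' m := cF hpF (hsF hd) m'B r'm' dm' hr'd
  have hcE : c ∉ pl B r' l := by
    intro e
    have h1 := cE (hsE hrl) e hm hrm hc hcr.symm
    have h2 := cE (hsE hb) (h1 hd) hh hbh hdh hbd
    have h3 := H.pl_eq vr' hl hr'l hh hr'h h2
    exact hrX (h3 ▸ hsE hrl)
  have haF : a ∉ pl B r' m := by
    intro e
    have h1 := cF (hsF hrm) e hl hrl ha har.symm
    have h2 := cF (h1 hb) (hsF hd) hh hbh hdh hbd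
    have h3 := H.pl_eq vr' hm hr'm hh hr'h h2
    exact hrX (h3 ▸ hsF hrm)
  have gl' : ∀ s ∈ l', s ∉ g := by
    intro s hs e
    have hsa : s ≠ a := fun e => haX (l'X (e ▸ hs))
    exact hcE (cE (l'E hs) (hsE ha) hg e hag hsa hcg)
  have gm' : ∀ s ∈ m', s ∉ g := by
    intro s hs e
    have hsc : s ≠ c := fun e => hcX (m'X (e ▸ hs))
    exact haF (cF (m'F hs) (hsF hc) hg e hcg hsc hag)
  have key : ∀ y ∈ m', y ≠ r' → y ≠ d → ∃ a' ∈ l', a' ≠ b ∧ a' ≠ y ∧ ∃ s ∈ g, s ∈ bl B a' y ∧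
      s ∈ pl B r' h := by
    intro y hy hyr hyd
    have hyX := m'X hy
    have hcy : c ≠ y := fun e => hcX (e ▸ hyX)
    obtain ⟨z, hz1, hz2⟩ := H.meet2 vr' hm hr'm (H.bB hcy) hk
      (cF (hsF hc) (m'F hy) (H.bB hcy) (H.b1 hcy) (H.b2 hcy) hcy) kF
    have hzr : z ≠ r := by
      rintro rfl
      have e1 : bl B c y = m := H.un hcr (H.bB hcy) hm (H.b1 hcy) hz1 hc hrm
      have e2 : y ∈ m := e1 ▸ H.b2 hcy
      have e3 : m = m' := H.un hyd hm m'B e2 hd hy dm'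
      exact hr'm (e3 ▸ r'm')
    have hzr' : z ≠ r' := by
      rintro rfl
      have e1 : bl B c y = m' := H.un hyr (H.bB hcy) m'B (H.b2 hcy) hz1 hy r'm'
      exact hcX (m'X (e1 ▸ H.b1 hcy))
    have hza : z ≠ a := fun e => off a ha har (e ▸ hz2)
    have hzX := hkX z hz2 hzr'
    obtain ⟨a', h1, h2⟩ := H.meet2 vr' hl hr'l (H.bB hza) l'B
      (cE (kE hz2) (hsE ha) (H.bB hza) (H.b1 hza) (H.b2 hza) hza) l'E
    have ha'r : a' ≠ r' := by
      rintro rfl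
      have e1 : bl B z a = k := H.un hzr' (H.bB hza) hk (H.b1 hza) h1 hz2 hr'k
      exact off a ha har (e1 ▸ H.b2 hza)
    have ha'b : a' ≠ b := by
      rintro rfl
      have e1 : bl B z a = l := H.un hab (H.bB hza) hl (H.b2 hza) h1 ha hb
      exact hzr (H.pt hk hl hkl hz2 (e1 ▸ H.b1 hza) hr hrl)
    have ha'z : a' ≠ z := fun e => hzX (l'X (e ▸ h2))
    have hyz : y ≠ z := fun e => hzX (m'X (e ▸ hy))
    have ha'y : a' ≠ y := fun e => ha'r (H.pt l'B m'B hl'm' h2 (e ▸ hy) r'l' r'm')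
    have hne : bl B z a ≠ bl B c y := by
      intro e
      have h3 := cX (l'X h2) hyX (H.bB hcy) (e ▸ h1) (H.b2 hcy) ha'y
      exact hcX (h3 (H.b1 hcy))
    have hj := cX (l'X h2) hyX (H.bB ha'y) (H.b1 ha'y) (H.b2 ha'y) ha'y
    have hcz : c ≠ z := fun e => off' c hc hcr (e ▸ hz2)
    obtain ⟨s, hs1, hs2⟩ := hV z hz2 hzr _ (H.bB hza) _ (H.bB hcy) hne (H.b1 hza) hz1
      a (H.b2 hza) a' h1 c (H.b1 hcy) y (H.b2 hcy) hza.symm ha'z hcz hyz g hg _ (H.bB ha'y)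
      hag hcg (H.b1 ha'y) (H.b2 ha'y)
    exact ⟨a', h2, ha'b, ha'y, s, hs1, hs2, hj hs2⟩
  have guniq : ∀ s ∈ g, ∀ s' ∈ g, s ∈ pl B r' h → s' ∈ pl B r' h → s = s' := by
    intro s hs s' hs' h1 h2
    by_contra hne
    exact haX (cX h1 h2 hg hs hs' hne hag)
  obtain ⟨y0, hy0, hy0r, hy0d⟩ := H.three_pts m'B r' d
  obtain ⟨_, _, _, _, s0, hs0, _, hs0X⟩ := key y0 hy0 hy0r hy0d
  by_cases hs0b : b = s0
  · exact ⟨s0, hs0, hs0b ▸ hbh⟩
  obtain ⟨y, hy1, hy2⟩ := H.meet2 vr' hh hr'h (H.bB hs0b) m'B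
    (cX hbX hs0X (H.bB hs0b) (H.b1 hs0b) (H.b2 hs0b) hs0b) m'X
  have hyr : y ≠ r' := by
    rintro rfl
    have e1 : bl B b s0 = l' := H.un hr'b.symm (H.bB hs0b) l'B (H.b1 hs0b) hy1 bl' r'l'
    exact gl' s0 (e1 ▸ H.b2 hs0b) hs0
  by_cases hyd : y = d
  · subst hyd
    have e1 : bl B b s0 = h := H.un hbd (H.bB hs0b) hh (H.b1 hs0b) hy1 hbh hdh
    exact ⟨s0, hs0, e1 ▸ H.b2 hs0b⟩
  exfalso
  obtain ⟨a', h1, h2, h3, s, hs1, hs2, hs3⟩ := key y hy2 hyr hyd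
  have e0 := guniq s hs1 s0 hs0 hs3 hs0X
  subst e0
  have hsy : s ≠ y := fun e => gm' y hy2 (e ▸ hs1)
  have e1 : bl B b s = bl B a' y := H.un hsy (H.bB hs0b) (H.bB h3) (H.b2 hs0b) hy1 hs2 (H.b2 h3)
  have e2 : bl B b s = l' := H.un h2 (H.bB hs0b) l'B (e1 ▸ H.b1 h3) (H.b1 hs0b) h1 bl'
  exact hyr (H.pt l'B m'B hl'm' (e2 ▸ hy1) hy2 r'l' r'm')

/-- if there is a point that is not a Veblen point, then more than `(n - 1) / q` points are not -/
theorem all_veblen [Fintype V] (hc : ∀ W : Finset V, (∀ x, x ∉ W → Veblen B x) →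
    (∀ x ∈ W, ¬ Veblen B x) → q * W.card < Fintype.card V - 1 + q) (x : V) : Veblen B x := by
  classical
  by_contra hx
  set W : Finset V := univ.filter fun x => ¬ Veblen B x with hW
  have h1 := hc W (fun y hy => by
    by_contra h; exact hy (by rw [hW, mem_filter]; exact ⟨mem_univ _, h⟩))
    (fun y hy => by rw [hW, mem_filter] at hy; exact hy.2)
  have hxW : x ∈ W := by rw [hW, mem_filter]; exact ⟨mem_univ _, hx⟩
  have h2 : (univ.erase x : Finset V) ⊆ (W.erase x).biUnion fun w => (bl B x w).erase x := by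
    intro y hy
    have hxy : x ≠ y := (ne_of_mem_erase hy).symm
    by_contra hcon
    apply hx
    refine H.veblen_of_block (H.bB hxy) (H.b1 hxy) ?_
    intro w hw hwx
    by_contra hnw
    apply hcon
    rw [mem_biUnion]
    refine ⟨w, mem_erase.2 ⟨hwx, by rw [hW, mem_filter]; exact ⟨mem_univ _, hnw⟩⟩, ?_⟩
    rw [mem_erase]
    refine ⟨hxy.symm, ?_⟩
    rw [H.bl_eq hwx.symm (H.bB hxy) (H.b1 hxy) hw]
    exact H.b2 hxy
  have h3 := card_le_card h2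
  rw [card_erase_of_mem (mem_univ x), card_univ] at h3
  have h4 : ((W.erase x).biUnion fun w => (bl B x w).erase x).card ≤ (W.erase x).card * q := by
    refine card_biUnion_le_card_mul _ _ _ fun w hw => ?_
    have hxw : x ≠ w := (ne_of_mem_erase hw).symm
    rw [card_erase_of_mem (H.b1 hxw), H.size _ (H.bB hxw)]
    simp
  rw [card_erase_of_mem hxW] at h4
  have h5 : 1 ≤ W.card := card_pos.2 ⟨x, hxW⟩
  have h6 : (W.card - 1) * q + q = q * W.card := by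
    obtain ⟨t, ht⟩ := Nat.exists_eq_add_of_le h5
    rw [ht]
    simp only [Nat.add_sub_cancel_left]
    ring
  omega

end LS

end Pool.Agent.V11100.VB
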