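import Mathlib
import Pool.Agent.V11100.VB.Base

set_option autoImplicit false

/-!
# Desargues configurations in the planes of a space in which all points are Veblen points
-/

namespace Pool.Agent.V11100.VB

open Finset

variable {V : Type} [DecidableEq V]

/-- `S` contains the block through any two of its points -/
def Sub (B : Finset (Finset V)) (S : Finset V) : Prop :=
  ∀ g ∈ B, ∀ x ∈ S, ∀ y ∈ S, x ≠ y → x ∈ g → y ∈ g → g ⊆ S

namespace LS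

variable {B : Finset (Finset V)} {q : ℕ} (H : LS B q)
include H

theorem lift {S : Finset V} (hS : Sub B S) (hV : ∀ x, Veblen B x) {c z z' : V} {K : Finset V}
    (hK : K ∈ B) (cK : c ∈ K) (zK : z ∈ K) (z'K : z' ∈ K) (cS : c ∈ S) (zS : z ∉ S)
    (z'c : z' ≠ c) (zz' : z ≠ z') {l : Finset V} (hl : l ∈ B) (cl : c ∈ l) {o x : V} (ol : o ∈ l)
    (xl : x ∈ l) (oc : o ≠ c) (xc : x ≠ c) (ox : o ≠ x) (oS : o ∈ S) (xS : x ∈ S) :
    ∃ A, A ∉ S ∧ A ∈ bl B z o ∧ A ∈ bl B z' x ∧ A ≠ z ∧ A ≠ z' := by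
  have zc : z ≠ c := fun e => zS (e ▸ cS)
  have KS : ∀ s ∈ K, s ∈ S → s = c := by
    intro s hs hsS
    by_contra hne
    exact zS (hS K hK s hsS c cS hne hs cK zK)
  have lS : l ⊆ S := hS l hl o oS c cS oc ol cl
  have hlK : l ≠ K := fun e => oc (KS o (e ▸ ol) oS)
  have z'S : z' ∉ S := fun e => z'c (KS z' z'K e)
  have zo : z ≠ o := fun e => zS (e ▸ oS)
  have z'x : z' ≠ x := fun e => z'S (e ▸ xS)
  obtain ⟨A, h1, h2⟩ := hV c l hl K hK hlK cl cK o ol x xl z zK z' z'K oc xc zc z'c _ (H.bB zo) _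
    (H.bB z'x) (H.b2 zo) (H.b1 zo) (H.b2 z'x) (H.b1 z'x)
  have hAz : A ≠ z := by
    rintro rfl
    have e : bl B z' x = K := H.un zz' (H.bB z'x) hK h2 (H.b1 z'x) zK z'K
    exact xc (KS x (e ▸ H.b2 z'x) xS)
  have hAz' : A ≠ z' := by
    rintro rfl
    have e : bl B z o = K := H.un zz' (H.bB zo) hK (H.b1 zo) h1 zK z'K
    exact oc (KS o (e ▸ H.b2 zo) oS)
  refine ⟨A, fun hA => ?_, h1, h2, hAz, hAz'⟩
  by_cases hAo : A = o
  · subst hAo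
    have e : bl B z' x = l := H.un ox (H.bB z'x) hl h2 (H.b2 z'x) ol xl
    exact z'S (lS (e ▸ H.b1 z'x))
  · exact zS (hS _ (H.bB zo) A hA o oS hAo h1 (H.b2 zo) (H.b1 zo))

theorem side {S : Finset V} (hS : Sub B S) (hV : ∀ x, Veblen B x) {z z' : V} (zS : z ∉ S)
    (z'S : z' ∉ S) {o w x w' t : V} (oS : o ∈ S) (wS : w ∈ S) (xS : x ∈ S) (w'S : w' ∈ S)
    (ow : o ≠ w) (xw : x ≠ w') {g h : Finset V} (hg : g ∈ B) (hh : h ∈ B) (gh : g ≠ h)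
    (og : o ∈ g) (wg : w ∈ g) (xh : x ∈ h) (wh : w' ∈ h) (tg : t ∈ g) (th : t ∈ h) {A D : V}
    (AS : A ∉ S) (hA : A ∈ bl B z o ∧ A ∈ bl B z' x ∧ A ≠ z ∧ A ≠ z')
    (hD : D ∈ bl B z w ∧ D ∈ bl B z' w' ∧ D ≠ z ∧ D ≠ z') : A ≠ D ∧ t ∈ bl B A D := by
  have gS : g ⊆ S := hS g hg o oS w wS ow og wg
  have hSs : h ⊆ S := hS h hh x xS w' w'S xw xh wh
  have ne : ∀ {y u : V}, y ∉ S → u ∈ S → y ≠ u := fun h1 h2 e => h1 (e ▸ h2)
  have zo := ne zS oS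
  have zw := ne zS wS
  have zx := ne z'S xS
  have zw' := ne z'S w'S
  have hne : bl B z o ≠ bl B z w := by
    intro e
    have : g = bl B z o := H.un ow hg (H.bB zo) og wg (H.b2 zo) (e ▸ H.b2 zw)
    exact zS (gS (this ▸ H.b1 zo))
  have hne' : bl B z' x ≠ bl B z' w' := by
    intro e
    have : h = bl B z' x := H.un xw hh (H.bB zx) xh wh (H.b2 zx) (e ▸ H.b2 zw')
    exact z'S (hSs (this ▸ H.b1 zx))
  have hAD : A ≠ D := by
    rintro rfl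
    exact hA.2.2.1 (H.pt (H.bB zo) (H.bB zw) hne hA.1 hD.1 (H.b1 zo) (H.b1 zw))
  refine ⟨hAD, ?_⟩
  obtain ⟨t1, h1, h2⟩ := hV z _ (H.bB zo) _ (H.bB zw) hne (H.b1 zo) (H.b1 zw) o (H.b2 zo) A hA.1
    w (H.b2 zw) D hD.1 zo.symm hA.2.2.1 zw.symm hD.2.2.1 g hg _ (H.bB hAD) og wg (H.b1 hAD)
    (H.b2 hAD)
  obtain ⟨t2, h3, h4⟩ := hV z' _ (H.bB zx) _ (H.bB zw') hne' (H.b1 zx) (H.b1 zw') x (H.b2 zx) A
    hA.2.1 w' (H.b2 zw') D hD.2.1 zx.symm hA.2.2.2 zw'.symm hD.2.2.2 h hh _ (H.bB hAD) xh wh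
    (H.b1 hAD) (H.b2 hAD)
  have e : t1 = t2 := by
    by_contra hne
    exact AS (hS _ (H.bB hAD) t1 (gS h1) t2 (hSs h3) hne h2 h4 (H.b1 hAD))
  subst e
  have e2 : t1 = t := H.pt hg hh gh h1 h3 tg th
  exact e2 ▸ h2

theorem desargues {S : Finset V} (hS : Sub B S) (hV : ∀ x, Veblen B x)
    (hm : ∀ g ∈ B, ∀ h ∈ B, g ⊆ S → h ⊆ S → ∃ w, w ∈ g ∧ w ∈ h) {z : V} (zS : z ∉ S)
    {a : Finset V} (ha : a ∈ B) (haS : a ⊆ S) {c o x w w' v v' : V} (cS : c ∈ S) (oS : o ∈ S)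
    (xS : x ∈ S) (wS : w ∈ S) (w'S : w' ∈ S) (vS : v ∈ S) (v'S : v' ∈ S)
    (oa : o ∉ a) (xa : x ∉ a) (wa : w ∉ a) (va : v ∉ a)
    (co : c ≠ o) (cx : c ≠ x) (cw : c ≠ w) (cw' : c ≠ w') (cv : c ≠ v) (cv' : c ≠ v') (ox : o ≠ x)
    {l m k : Finset V} (hl : l ∈ B) (hmB : m ∈ B) (hk : k ∈ B) (lm : l ≠ m) (lk : l ≠ k)
    (mk : m ≠ k) (cl : c ∈ l) (ol : o ∈ l) (xl : x ∈ l) (cm : c ∈ m) (wm : w ∈ m) (w'm : w' ∈ m)
    (ck : c ∈ k) (vk : v ∈ k) (v'k : v' ∈ k)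
    {g1 h1 g2 h2 : Finset V} (g1B : g1 ∈ B) (h1B : h1 ∈ B) (g2B : g2 ∈ B) (h2B : h2 ∈ B)
    {s t : V} (sa : s ∈ a) (ta : t ∈ a) (og1 : o ∈ g1) (wg1 : w ∈ g1) (sg1 : s ∈ g1)
    (xh1 : x ∈ h1) (wh1 : w' ∈ h1) (sh1 : s ∈ h1) (og2 : o ∈ g2) (vg2 : v ∈ g2) (tg2 : t ∈ g2)
    (xh2 : x ∈ h2) (vh2 : v' ∈ h2) (th2 : t ∈ h2) :
    ∃ b ∈ a, ∃ g ∈ B, ∃ h ∈ B, (w ∈ g ∧ v ∈ g ∧ b ∈ g) ∧ (w' ∈ h ∧ v' ∈ h ∧ b ∈ h) := by
  have ow : o ≠ w := fun e => co (H.pt hl hmB lm cl cm ol (e ▸ wm))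
  have ov : o ≠ v := fun e => co (H.pt hl hk lk cl ck ol (e ▸ vk))
  have wv : w ≠ v := fun e => cw (H.pt hmB hk mk cm ck wm (e ▸ vk))
  have xw : x ≠ w' := fun e => cx (H.pt hl hmB lm cl cm xl (e ▸ w'm))
  have xv : x ≠ v' := fun e => cx (H.pt hl hk lk cl ck xl (e ▸ v'k))
  have wv' : w' ≠ v' := fun e => cw' (H.pt hmB hk mk cm ck w'm (e ▸ v'k))
  have gh1 : g1 ≠ h1 := by
    intro e
    have : g1 = l := H.un ox g1B hl og1 (e ▸ xh1) ol xl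
    exact cw (H.pt hl hmB lm cl cm (this ▸ wg1) wm)
  have gh2 : g2 ≠ h2 := by
    intro e
    have : g2 = l := H.un ox g2B hl og2 (e ▸ xh2) ol xl
    exact cv (H.pt hl hk lk cl ck (this ▸ vg2) vk)
  have ww' : w ≠ w' := by
    rintro rfl
    exact wa ((H.pt g1B h1B gh1 wg1 wh1 sg1 sh1) ▸ sa)
  have vv' : v ≠ v' := by
    rintro rfl
    exact va ((H.pt g2B h2B gh2 vg2 vh2 tg2 th2) ▸ ta)
  by_cases hst : s = t
  · subst hst
    have os : o ≠ s := fun e => oa (e ▸ sa)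
    have xs : x ≠ s := fun e => xa (e ▸ sa)
    have e1 : g1 = g2 := H.un os g1B g2B og1 sg1 og2 tg2
    have e2 : h1 = h2 := H.un xs h1B h2B xh1 sh1 xh2 th2
    exact ⟨s, sa, g1, g1B, h1, h1B, ⟨wg1, e1 ▸ vg2, sg1⟩, ⟨wh1, e2 ▸ vh2, sh1⟩⟩
  have cz : c ≠ z := fun e => zS (e ▸ cS)
  obtain ⟨z', z'K, z'c, z'z⟩ := H.three_pts (H.bB cz) c z
  have KB := H.bB cz
  have cK := H.b1 cz
  have zK := H.b2 cz
  have z'S : z' ∉ S := fun e => zS (hS _ KB z' e c cS z'c z'K cK zK)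
  obtain ⟨A, AS, hA⟩ := H.lift hS hV KB cK zK z'K cS zS z'c z'z.symm hl cl ol xl co.symm cx.symm ox
    oS xS
  obtain ⟨D, DS, hD⟩ := H.lift hS hV KB cK zK z'K cS zS z'c z'z.symm hmB cm wm w'm cw.symm cw'.symm
    ww' wS w'S
  obtain ⟨C, CS, hC⟩ := H.lift hS hV KB cK zK z'K cS zS z'c z'z.symm hk ck vk v'k cv.symm cv'.symm
    vv' vS v'S
  obtain ⟨AD, sAD⟩ := H.side hS hV zS z'S oS wS xS w'S ow xw g1B h1B gh1 og1 wg1 xh1 wh1 sg1 sh1 AS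
    hA hD
  obtain ⟨AC, tAC⟩ := H.side hS hV zS z'S oS vS xS v'S ov xv g2B h2B gh2 og2 vg2 xh2 vh2 tg2 th2 AS
    hA hC
  have g3S := hS _ (H.bB wv) w wS v vS wv (H.b1 wv) (H.b2 wv)
  have h3S := hS _ (H.bB wv') w' w'S v' v'S wv' (H.b1 wv') (H.b2 wv')
  have gh3 : bl B w v ≠ bl B w' v' := by
    intro e
    have : bl B w v = m := H.un ww' (H.bB wv) hmB (H.b1 wv) (e ▸ H.b1 wv') wm w'm
    exact cv (H.pt hmB hk mk cm ck (this ▸ H.b2 wv) vk)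
  obtain ⟨r, r1, r2⟩ := hm _ (H.bB wv) _ (H.bB wv') g3S h3S
  obtain ⟨DC, rDC⟩ := H.side hS hV zS z'S wS vS w'S v'S wv wv' (H.bB wv) (H.bB wv') gh3 (H.b1 wv)
    (H.b2 wv) (H.b1 wv') (H.b2 wv') r1 r2 DS hD hC
  have hne : bl B A D ≠ bl B A C := by
    intro e
    exact AS (hS _ (H.bB AD) s (haS sa) t (haS ta) hst sAD (e ▸ tAC) (H.b1 AD))
  have sA : s ≠ A := fun e => AS (e ▸ haS sa)
  have tA : t ≠ A := fun e => AS (e ▸ haS ta)
  obtain ⟨r', h3, h4⟩ := hV A _ (H.bB AD) _ (H.bB AC) hne (H.b1 AD) (H.b1 AC) s sAD D (H.b2 AD)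
    t tAC C (H.b2 AC) sA AD.symm tA AC.symm a ha _ (H.bB DC) sa ta (H.b1 DC) (H.b2 DC)
  have e : r' = r := by
    by_contra hne
    exact DS (hS _ (H.bB DC) r' (haS h3) r (g3S r1) hne h4 rDC (H.b1 DC))
  subst e
  exact ⟨r', h3, _, H.bB wv, _, H.bB wv', ⟨H.b1 wv, H.b2 wv, r1⟩, ⟨H.b1 wv', H.b2 wv', r2⟩⟩

/-! ### Dimension -/

theorem cone (hV : ∀ x, Veblen B x) {S : Finset V} (hS : Sub B S) (hne : S.Nonempty) {p : V}
    (hp : p ∉ S) : ∃ S' : Finset V, Sub B S' ∧ S'.card = q * S.card + 1 := by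
  have hpn : ∀ y ∈ S, p ≠ y := fun y hy e => hp (e ▸ hy)
  refine ⟨S.biUnion fun y => bl B p y, ?_, ?_⟩
  · intro g hg u hu v hv huv hug hvg
    rw [mem_biUnion] at hu hv
    obtain ⟨y, hy, hu⟩ := hu
    obtain ⟨y', hy', hv⟩ := hv
    by_cases hyy : y = y'
    · subst hyy
      have e : g = bl B p y := H.un huv hg (H.bB (hpn y hy)) hug hvg hu hv
      intro t ht
      rw [mem_biUnion]
      exact ⟨y, hy, e ▸ ht⟩
    · have hL := H.bB hyy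
      have hLS := hS _ hL y hy y' hy' hyy (H.b1 hyy) (H.b2 hyy)
      have hpL : p ∉ bl B y y' := fun e => hp (hLS e)
      have hsub : pl B p (bl B y y') ⊆ S.biUnion fun y => bl B p y :=
        biUnion_subset_biUnion_of_subset_left _ hLS
      have h1 : u ∈ pl B p (bl B y y') := by
        unfold pl; rw [mem_biUnion]; exact ⟨y, H.b1 hyy, hu⟩
      have h2 : v ∈ pl B p (bl B y y') := by
        unfold pl; rw [mem_biUnion]; exact ⟨y', H.b2 hyy, hv⟩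
      exact (H.closed (hV p) hL hpL h1 h2 hg hug hvg huv).trans hsub
  · obtain ⟨y0, hy0⟩ := hne
    have h : (S.biUnion fun y => bl B p y) = insert p (S.biUnion fun y => (bl B p y).erase p) := by
      ext x
      by_cases hx : x = p
      · subst hx
        simp only [mem_biUnion, mem_insert, true_or, iff_true]
        exact ⟨y0, hy0, H.b1 (hpn y0 hy0)⟩
      · simp [hx]
    rw [h, card_insert_of_notMem (by simp), card_biUnion]
    · rw [sum_congr rfl fun y hy => by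
        rw [card_erase_of_mem (H.b1 (hpn y hy)), H.size _ (H.bB (hpn y hy))]]
      simp only [Nat.add_sub_cancel, sum_const, smul_eq_mul]
      ring
    · intro y hy y' hy' hne
      rw [Function.onFun, disjoint_left]
      intro x hx hx'
      rw [mem_erase] at hx hx'
      have h1 := hpn y hy
      have h2 := hpn y' hy'
      have e : bl B p y = bl B p y' := H.un hx.1.symm (H.bB h1) (H.bB h2) (H.b1 h1) hx.2 (H.b1 h2)
        hx'.2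
      exact hp (hS _ (H.bB h1) y hy y' hy' hne (H.b2 h1) (e ▸ H.b2 h2) (H.b1 h1))

theorem dim [Fintype V] [Nonempty V] (hV : ∀ x, Veblen B x) :
    ∃ d : ℕ, Fintype.card V = ∑ i ∈ range (d + 1), q ^ i := by
  have key : ∀ m : ℕ, ∃ S : Finset V, Sub B S ∧ S.Nonempty ∧ (∃ d, S.card = ∑ i ∈ range (d + 1), q ^ i)
      ∧ (S = univ ∨ m ≤ S.card) := by
    intro m
    induction m with
    | zero =>
      obtain ⟨x⟩ := (inferInstance : Nonempty V)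
      refine ⟨{x}, ?_, singleton_nonempty x, ⟨0, by simp⟩, Or.inr (Nat.zero_le _)⟩
      intro g _ u hu v hv huv
      rw [mem_singleton] at hu hv
      exact absurd (hu.trans hv.symm) huv
    | succ m ih =>
      obtain ⟨S, h1, h2, ⟨d, h3⟩, h4⟩ := ih
      by_cases hS : S = univ
      · exact ⟨S, h1, h2, ⟨d, h3⟩, Or.inl hS⟩
      have h5 := h4.resolve_left hS
      obtain ⟨p, hp⟩ : ∃ p, p ∉ S := by
        by_contra hc
        push Not at hc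
        exact hS (eq_univ_of_forall hc)
      obtain ⟨S', h6, h7⟩ := H.cone hV h1 h2 hp
      have hq := H.hq
      have h8 : S.card < S'.card := by rw [h7]; nlinarith
      refine ⟨S', h6, card_pos.1 (by omega), ⟨d + 1, ?_⟩, Or.inr (by omega)⟩
      rw [h7, h3, sum_range_succ' _ (d + 1), mul_sum, pow_zero]
      refine congrArg₂ _ (sum_congr rfl fun i _ => ?_) rfl
      rw [pow_succ]; ring
  obtain ⟨S, _, _, ⟨d, h3⟩, h4⟩ := key (Fintype.card V + 1)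
  rcases h4 with h | h
  · exact ⟨d, by rw [← h3, h, card_univ]⟩
  · have := card_le_univ S
    omega

end LS

end Pool.Agent.V11100.VB
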