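import Mathlib

set_option autoImplicit false

/-!
# The degree of a sharply two-transitive finite group of permutations is a prime power
-/

namespace Pool.Agent.V11100.VB

open Finset

theorem sharp_two {X : Type} [Fintype X] [DecidableEq X] (G : Subgroup (Equiv.Perm X))
    (h2 : 2 ≤ Fintype.card X)
    (hG : ∀ a a' b b' : X, a ≠ a' → b ≠ b' → ∃! g, g ∈ G ∧ g a = b ∧ g a' = b') :
    IsPrimePow (Fintype.card X) := by
  classical
  set n := Fintype.card X with hn
  obtain ⟨a0, a1, h01⟩ := Fintype.exists_pair_of_one_lt_card (show 1 < Fintype.card X by omega)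
  have fix1 : ∀ g ∈ G, ∀ x y : X, x ≠ y → g x = x → g y = y → g = 1 := by
    intro g hg x y hxy h1 h3
    obtain ⟨k, _, hk⟩ := hG x y x y hxy hxy
    rw [hk g ⟨hg, h1, h3⟩, hk 1 ⟨G.one_mem, rfl, rfl⟩]
  set Gf : Finset (Equiv.Perm X) := univ.filter (fun g => g ∈ G) with hGf
  have mGf : ∀ g, g ∈ Gf ↔ g ∈ G := fun g => by rw [hGf, mem_filter]; simp
  have cG : Gf.card = n * (n - 1) := by
    have h := card_bij (s := Gf) (t := (univ : Finset X).offDiag) (fun g _ => (g a0, g a1))
      (fun g _ => by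
        rw [mem_offDiag]
        exact ⟨mem_univ _, mem_univ _, fun e => h01 (g.injective e)⟩)
      (fun g hg k hk e => by
        rw [Prod.mk.injEq] at e
        obtain ⟨u, _, hu⟩ := hG a0 a1 (k a0) (k a1) h01 (fun e => h01 (k.injective e))
        rw [hu g ⟨(mGf g).1 hg, e.1, e.2⟩, hu k ⟨(mGf k).1 hk, rfl, rfl⟩])
      (fun b hb => by
        rw [mem_offDiag] at hb
        obtain ⟨u, ⟨h1, h3, h4⟩, _⟩ := hG a0 a1 b.1 b.2 h01 hb.2.2
        exact ⟨u, (mGf u).2 h1, Prod.ext h3 h4⟩)
    rw [h, offDiag_card, card_univ, ← hn, Nat.mul_sub, mul_one]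
  have cSt : ∀ x : X, (Gf.filter fun g => g x = x).card = n - 1 := by
    intro x
    obtain ⟨y, hy⟩ : ∃ y : X, y ≠ x := by
      by_cases h : a0 = x
      · exact ⟨a1, fun e => h01 (h.trans e.symm)⟩
      · exact ⟨a0, h⟩
    have h := card_bij (s := Gf.filter fun g => g x = x) (t := (univ : Finset X).erase x)
      (fun g _ => g y)
      (fun g hg => by
        rw [mem_filter] at hg
        rw [mem_erase]
        refine ⟨fun e => hy (g.injective (e.trans hg.2.symm)), mem_univ _⟩)
      (fun g hg k hk e => by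
        rw [mem_filter] at hg hk
        obtain ⟨u, _, hu⟩ := hG x y x (k y) hy.symm
          (fun e => hy (k.injective (e.symm.trans hk.2.symm)))
        rw [hu g ⟨(mGf g).1 hg.1, hg.2, e⟩, hu k ⟨(mGf k).1 hk.1, hk.2, rfl⟩])
      (fun b hb => by
        rw [mem_erase] at hb
        obtain ⟨u, ⟨h1, h3, h4⟩, _⟩ := hG x y x b hy.symm hb.1.symm
        exact ⟨u, mem_filter.2 ⟨(mGf u).2 h1, h3⟩, h4⟩)
    rw [h, card_erase_of_mem (mem_univ _), card_univ]
  set F : Finset (Equiv.Perm X) := Gf.filter fun g => ∀ x, g x ≠ x with hF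
  have cF : F.card ≤ n - 1 := by
    have h1 : ∑ g ∈ Gf, (univ.filter fun x => g x = x).card = n * (n - 1) := by
      have : ∑ g ∈ Gf, (univ.filter fun x => g x = x).card =
          ∑ x : X, (Gf.filter fun g => g x = x).card := by
        simp only [card_filter]
        exact sum_comm
      rw [this, sum_congr rfl fun x _ => cSt x, sum_const, card_univ, smul_eq_mul]
    have h3 : ∀ g ∈ Gf, (univ.filter fun x => g x = x).card + (if g ∈ F then 1 else 0) ≤
        1 + (if g = 1 then (n - 1) else 0) := by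
      intro g hg
      by_cases hg1 : g = 1
      · subst hg1
        have : (1 : Equiv.Perm X) ∉ F := fun h => by
          rw [hF, mem_filter] at h
          exact h.2 a0 rfl
        simp only [Equiv.Perm.one_apply, filter_true, card_univ, if_neg this, if_true]
        omega
      · by_cases hgF : g ∈ F
        · have h0 : (univ.filter fun x => g x = x) = ∅ := by
            rw [filter_eq_empty_iff]
            intro x _
            rw [hF, mem_filter] at hgF
            exact hgF.2 x
          rw [h0, if_pos hgF, if_neg hg1]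
          simp
        · rw [if_neg hgF, if_neg hg1, add_zero, add_zero, card_le_one]
          intro x hx y hy
          rw [mem_filter] at hx hy
          by_contra hne
          exact hg1 (fix1 g ((mGf g).1 hg) x y hne hx.2 hy.2)
    have h4 := sum_le_sum h3
    rw [sum_add_distrib, sum_add_distrib, h1, sum_const, smul_eq_mul, mul_one, cG,
      sum_ite_eq' Gf (1 : Equiv.Perm X) (fun _ => n - 1), if_pos ((mGf 1).2 G.one_mem),
      ← card_filter] at h4
    have h5 : Gf.filter (fun g => g ∈ F) = F := by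
      ext g
      rw [mem_filter]
      exact ⟨fun h => h.2, fun h => ⟨(mem_filter.1 h).1, h⟩⟩
    rw [h5] at h4
    omega
  have hn1 : n ≠ 1 := by omega
  obtain ⟨p, hp, hpn⟩ := Nat.exists_prime_and_dvd hn1
  haveI : Fact p.Prime := ⟨hp⟩
  have hcard : Fintype.card G = n * (n - 1) := by
    rw [← cG, hGf, ← Fintype.card_subtype]
  obtain ⟨g0, hg0⟩ := exists_prime_orderOf_dvd_card p (hcard ▸ hpn.mul_right (n - 1))
  set g : Equiv.Perm X := g0.1 with hg
  have gG : g ∈ G := g0.2
  have gp : g ^ p = 1 := by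
    have : g0 ^ p = 1 := by rw [← hg0]; exact pow_orderOf_eq_one g0
    have h := congrArg Subtype.val this
    simpa using h
  have gne : g ≠ 1 := by
    intro e
    have : g0 = 1 := Subtype.ext e
    rw [this, orderOf_one] at hg0
    exact hp.one_lt.ne hg0
  have gfix : ∀ x, g x ≠ x := by
    intro x hx
    let f : Function.End X := (g : X → X)
    have hpow : ∀ k : ℕ, f ^ k = ((g ^ k : Equiv.Perm X) : X → X) := by
      intro k
      induction k with
      | zero => rfl
      | succ k ih =>
        rw [pow_succ, pow_succ, ih]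
        rfl
    have hf : f ^ p ^ 1 = 1 := by
      rw [pow_one, hpow, gp]
      rfl
    have h := Equiv.Perm.card_fixedPoints_modEq (α := X) (p := p) (n := 1) hf
    have h1 : Fintype.card (Function.fixedPoints (g : X → X)) = 1 := by
      rw [Fintype.card_eq_one_iff]
      refine ⟨⟨x, hx⟩, ?_⟩
      rintro ⟨y, hy⟩
      by_contra hne
      have hxy : x ≠ y := fun e => hne (Subtype.ext e.symm)
      exact gne (fix1 g gG x y hxy hx hy)
    have h3 : Fintype.card X ≡ 1 [MOD p] := by
      rw [← h1]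
      convert h
    have h4 : n ≡ 0 [MOD p] := (Nat.modEq_zero_iff_dvd).2 hpn
    have h5 : 0 ≡ 1 [MOD p] := h4.symm.trans h3
    have h6 := (Nat.modEq_iff_dvd' (by norm_num : 0 ≤ 1)).1 h5
    exact hp.one_lt.ne' (Nat.dvd_one.1 h6)
  let C : Subgroup (Equiv.Perm X) := G ⊓ Subgroup.centralizer {g}
  have mC : ∀ c, c ∈ C ↔ c ∈ G ∧ c * g = g * c := by
    intro c
    show c ∈ G ∧ c ∈ Subgroup.centralizer {g} ↔ _
    rw [Subgroup.mem_centralizer_singleton_iff]
  set Cf : Finset (Equiv.Perm X) := univ.filter (fun c => c ∈ C) with hCf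
  have mCf : ∀ c, c ∈ Cf ↔ c ∈ C := fun c => by rw [hCf, mem_filter]; simp
  have cfix : ∀ c ∈ C, ∀ x, c x = x → c = 1 := by
    intro c hc x hx
    obtain ⟨h1, h3⟩ := (mC c).1 hc
    have h4 : c (g x) = g x := by
      have := congrArg (fun k : Equiv.Perm X => k x) h3
      simp only [Equiv.Perm.mul_apply] at this
      rw [this, hx]
    exact fix1 c h1 x (g x) (gfix x).symm hx h4
  have cC : Cf.card ≤ n := by
    rw [hn, ← card_univ]
    refine card_le_card_of_injOn (fun c => c a0) (fun _ _ => mem_univ _) ?_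
    intro c hc d hd e
    rw [mem_coe, mCf] at hc hd
    have h1 : (d⁻¹ * c) a0 = a0 := by
      rw [Equiv.Perm.mul_apply]
      simp only at e
      rw [e]
      exact d.symm_apply_apply a0
    have h3 := cfix _ (C.mul_mem (C.inv_mem hd) hc) a0 h1
    exact (inv_mul_eq_one.1 h3).symm
  have hCF : Cf.erase 1 ⊆ F := by
    intro c hc
    rw [mem_erase, mCf] at hc
    rw [hF, mem_filter]
    exact ⟨(mGf c).2 ((mC c).1 hc.2).1, fun x hx => hc.1 (cfix c hc.2 x hx)⟩
  set I : Finset (Equiv.Perm X) := Gf.image fun k => k * g * k⁻¹ with hI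
  have hIF : I ⊆ F := by
    intro c hc
    rw [hI, mem_image] at hc
    obtain ⟨k, hk, rfl⟩ := hc
    rw [mGf] at hk
    rw [hF, mem_filter]
    refine ⟨(mGf _).2 (G.mul_mem (G.mul_mem hk gG) (G.inv_mem hk)), fun x hx => ?_⟩
    refine gfix (k⁻¹ x) ?_
    have h1 : k (g (k⁻¹ x)) = x := hx
    have h3 := congrArg (fun y => k⁻¹ y) h1
    simpa using h3
  have hGI : Gf.card ≤ Cf.card * I.card := by
    rw [hI]
    refine card_le_mul_card_image Gf Cf.card ?_
    intro y hy
    rw [mem_image] at hy
    obtain ⟨k0, hk0, rfl⟩ := hy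
    refine card_le_card_of_injOn (fun k => k0⁻¹ * k) ?_ ?_
    · intro k hk
      rw [mem_coe, mem_filter, mGf] at hk
      rw [mem_coe, mCf, mC]
      refine ⟨G.mul_mem (G.inv_mem ((mGf _).1 hk0)) hk.1, ?_⟩
      have h1 : k * g = k0 * g * k0⁻¹ * k := by
        rw [← hk.2]; group
      calc k0⁻¹ * k * g = k0⁻¹ * (k * g) := by group
        _ = k0⁻¹ * (k0 * g * k0⁻¹ * k) := by rw [h1]
        _ = g * (k0⁻¹ * k) := by group
    · intro k _ k' _ e
      exact mul_left_cancel e
  have hI1 : I.card ≤ n - 1 := (card_le_card hIF).trans cF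
  have hCn : n ≤ Cf.card := by
    by_contra hc
    have h1 : Cf.card * I.card ≤ (n - 1) * (n - 1) := Nat.mul_le_mul (by omega) hI1
    rw [cG] at hGI
    have h3 : (n - 1) * (n - 1) < n * (n - 1) := Nat.mul_lt_mul_of_pos_right (by omega) (by omega)
    omega
  have hCeq : Cf.card = n := le_antisymm cC hCn
  have h1C : (1 : Equiv.Perm X) ∈ Cf := (mCf 1).2 C.one_mem
  have hIn : n - 1 ≤ I.card := by
    by_contra hc
    rw [cG, hCeq] at hGI
    have := Nat.le_of_mul_le_mul_left hGI (by omega)
    omega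
  have e1 : I = F := eq_of_subset_of_card_le hIF (cF.trans hIn)
  have hpC : ∀ c ∈ C, c ^ p = 1 := by
    intro c hc
    by_cases hc1 : c = 1
    · rw [hc1, one_pow]
    · have : c ∈ I := by
        rw [e1]
        exact hCF (mem_erase.2 ⟨hc1, (mCf c).2 hc⟩)
      rw [hI, mem_image] at this
      obtain ⟨k, _, rfl⟩ := this
      rw [conj_pow, gp]
      group
  have hP : IsPGroup p C := by
    intro c
    refine ⟨1, ?_⟩
    rw [pow_one]
    exact Subtype.ext (by simpa using hpC c.1 c.2)
  obtain ⟨k, hk⟩ := IsPGroup.iff_card.1 hP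
  have hk2 : Nat.card C = n := by
    rw [Nat.card_eq_fintype_card, ← hCeq, hCf, ← Fintype.card_subtype]
  rw [hk2] at hk
  rw [hk]
  have hk0 : k ≠ 0 := by
    rintro rfl
    rw [pow_zero] at hk
    omega
  exact hp.isPrimePow.pow hk0

end Pool.Agent.V11100.VB
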