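import Mathlib
import Pool.Agent.V11100.VB.Des
import Pool.Agent.V11100.VB.Sharp

set_option autoImplicit false

/-!
# Perspectivities between the blocks through a point
-/

namespace Pool.Agent.V11100.VB

open Finset

variable {V : Type} [DecidableEq V]

/-- the points of `l` other than `p` -/
def Pt (p : V) (l : Finset V) : Type := {a : V // a ∈ l ∧ a ≠ p}

/-- the blocks joining corresponding points have a common point -/
def Persp (B : Finset (Finset V)) (p : V) {l m : Finset V} (f : Pt p l ≃ Pt p m) : Prop :=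
  ∃ x, x ∉ l ∧ x ∉ m ∧ ∀ a, x ∈ bl B a.1 (f a).1

namespace LS

variable {B : Finset (Finset V)} {q : ℕ} (H : LS B q)
include H

theorem comm {x y : V} (h : x ≠ y) : bl B x y = bl B y x :=
  H.bl_eq h (H.bB h.symm) (H.b2 h.symm) (H.b1 h.symm)

theorem ptne {p : V} {l m : Finset V} (hl : l ∈ B) (hm : m ∈ B) (lm : l ≠ m) (pl : p ∈ l)
    (pm : p ∈ m) (a : Pt p l) (b : Pt p m) : a.1 ≠ b.1 := fun e =>
  a.2.2 (H.pt hl hm lm a.2.1 (e ▸ b.2.1) pl pm)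

theorem ex_pt {p : V} {l : Finset V} (hl : l ∈ B) (x : V) : ∃ a : Pt p l, a.1 ≠ x := by
  obtain ⟨z, hz, h1, h2⟩ := H.three_pts hl p x
  exact ⟨⟨z, hz, h1⟩, h2⟩

theorem comp {p : V} {l m n : Finset V} (hV : ∀ c ∈ m, c ≠ p → Veblen B c) (hl : l ∈ B)
    (hm : m ∈ B) (hn : n ∈ B) (pl : p ∈ l) (pm : p ∈ m) (pn : p ∈ n) (lm : l ≠ m) (mn : m ≠ n) (ln : l ≠ n)
    {E : Finset V} (hE : Sub B E) (lE : l ⊆ E) (nE : n ⊆ E) (mE : ∀ c ∈ m, c ≠ p → c ∉ E)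
    {f : Pt p l ≃ Pt p m} {g : Pt p m ≃ Pt p n} (hf : Persp B p f) (hg : Persp B p g) :
    Persp B p (f.trans g) := by
  obtain ⟨x, xl, xm, hx⟩ := hf
  obtain ⟨y, ym, yn, hy⟩ := hg
  have ne1 : ∀ a : Pt p l, a.1 ≠ (f a).1 := fun a => H.ptne hl hm lm pl pm a (f a)
  have ne2 : ∀ c : Pt p m, c.1 ≠ (g c).1 := fun c => H.ptne hm hn mn pm pn c (g c)
  have ne3 : ∀ a : Pt p l, a.1 ≠ (g (f a)).1 := fun a => H.ptne hl hn ln pl pn a _
  have cE : ∀ c : Pt p m, c.1 ∉ E := fun c => mE c.1 c.2.1 c.2.2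
  have hdiff : ∀ a : Pt p l, bl B a.1 (f a).1 ≠ bl B (f a).1 (g (f a)).1 := by
    intro a e
    have h1 := hE _ (H.bB (ne1 a)) a.1 (lE a.2.1) _ (nE (g (f a)).2.1) (ne3 a) (H.b1 (ne1 a))
      (e ▸ H.b2 (ne2 (f a)))
    exact cE (f a) (h1 (H.b2 (ne1 a)))
  obtain ⟨a0, _⟩ := H.ex_pt (p := p) hl p
  have xE : x ∉ E := by
    intro h
    have hxa : x ≠ a0.1 := fun e => xl (e ▸ a0.2.1)
    have h1 := hE _ (H.bB (ne1 a0)) x h a0.1 (lE a0.2.1) hxa (hx a0) (H.b1 (ne1 a0))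
    exact cE (f a0) (h1 (H.b2 (ne1 a0)))
  have hxy : x ≠ y := by
    intro e
    apply hdiff a0
    have hxc : x ≠ (f a0).1 := fun e => xm (e ▸ (f a0).2.1)
    exact H.un hxc (H.bB (ne1 a0)) (H.bB (ne2 (f a0))) (hx a0) (H.b2 (ne1 a0)) (e ▸ hy (f a0))
      (H.b1 (ne2 (f a0)))
  have key : ∀ a : Pt p l, ∃ z, z ∈ bl B a.1 (g (f a)).1 ∧ z ∈ bl B x y ∧ z ∈ E := by
    intro a
    have hxc : x ≠ (f a).1 := fun e => xm (e ▸ (f a).2.1)
    have hyc : y ≠ (f a).1 := fun e => ym (e ▸ (f a).2.1)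
    obtain ⟨z, h1, h2⟩ := hV (f a).1 (f a).2.1 (f a).2.2 _ (H.bB (ne1 a)) _ (H.bB (ne2 (f a))) (hdiff a)
      (H.b2 (ne1 a)) (H.b1 (ne2 (f a))) a.1 (H.b1 (ne1 a)) x (hx a) _ (H.b2 (ne2 (f a))) y
      (hy (f a)) (ne1 a) hxc (ne2 (f a)).symm hyc _ (H.bB (ne3 a)) _ (H.bB hxy) (H.b1 (ne3 a))
      (H.b2 (ne3 a)) (H.b1 hxy) (H.b2 hxy)
    exact ⟨z, h1, h2, hE _ (H.bB (ne3 a)) a.1 (lE a.2.1) _ (nE (g (f a)).2.1) (ne3 a)
      (H.b1 (ne3 a)) (H.b2 (ne3 a)) h1⟩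
  obtain ⟨z, _, hz2, hz3⟩ := key a0
  have hz : ∀ a : Pt p l, z ∈ bl B a.1 (g (f a)).1 := by
    intro a
    obtain ⟨z', h1, h2, h3⟩ := key a
    have : z' = z := by
      by_contra hne
      exact xE (hE _ (H.bB hxy) z' h3 z hz3 hne h2 hz2 (H.b1 hxy))
    exact this ▸ h1
  refine ⟨z, ?_, ?_, hz⟩
  · intro hzl
    obtain ⟨a, ha⟩ := H.ex_pt (p := p) hl z
    have e : bl B a.1 (g (f a)).1 = l := H.un ha (H.bB (ne3 a)) hl (H.b1 (ne3 a)) (hz a) a.2.1 hzl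
    have hin : (g (f a)).1 ∈ l :=
      Eq.subst (motive := fun s => (g (f a)).1 ∈ s) e (H.b2 (ne3 a))
    exact H.ptne hl hn ln pl pn ⟨(g (f a)).1, hin, (g (f a)).2.2⟩ (g (f a)) rfl
  · intro hzn
    obtain ⟨e', he'⟩ := H.ex_pt (p := p) hn z
    obtain ⟨a, rfl⟩ := (f.trans g).surjective e'
    have he2 : (g (f a)).1 ≠ z := he'
    have e : bl B a.1 (g (f a)).1 = n := H.un he2 (H.bB (ne3 a)) hn (H.b2 (ne3 a)) (hz a)
      (g (f a)).2.1 hzn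
    exact H.ptne hl hn ln pl pn a ⟨a.1, e ▸ H.b1 (ne3 a), a.2.2⟩ rfl

theorem psymm {p : V} {l m : Finset V} (hl : l ∈ B) (hm : m ∈ B) (pl : p ∈ l) (pm : p ∈ m)
    (lm : l ≠ m) {f : Pt p l ≃ Pt p m} (hf : Persp B p f) : Persp B p f.symm := by
  obtain ⟨x, xl, xm, hx⟩ := hf
  refine ⟨x, xm, xl, fun c => ?_⟩
  have h := hx (f.symm c)
  rw [Equiv.apply_symm_apply] at h
  rw [H.comm (H.ptne hm hl lm.symm pm pl c (f.symm c))]
  exact h

theorem plane_ex {p : V} (hp : Veblen B p) {l m : Finset V} (hl : l ∈ B) (hm : m ∈ B)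
    (pl' : p ∈ l) (pm : p ∈ m) (lm : l ≠ m) :
    ∃ E : Finset V, Sub B E ∧ l ⊆ E ∧ m ⊆ E ∧ E.card = (q + 1) * q + 1 ∧
      (∀ S, Sub B S → l ⊆ S → m ⊆ S → E ⊆ S) ∧
      (∀ g ∈ B, ∀ h ∈ B, g ⊆ E → h ⊆ E → ∃ w, w ∈ g ∧ w ∈ h) := by
  obtain ⟨a, _⟩ := H.ex_pt (p := p) hl p
  obtain ⟨b, _⟩ := H.ex_pt (p := p) hm p
  have hab : a.1 ≠ b.1 := H.ptne hl hm lm pl' pm a b
  have hL := H.bB hab
  have hpL : p ∉ bl B a.1 b.1 := by
    intro h
    have e : bl B a.1 b.1 = l := H.un a.2.2 hL hl (H.b1 hab) h a.2.1 pl'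
    have hin : b.1 ∈ l := e ▸ H.b2 hab
    exact H.ptne hl hm lm pl' pm ⟨b.1, hin, b.2.2⟩ b rfl
  have hs := H.L_sub (B := B) hpL
  have hpE := H.p_mem hL hpL
  have hcl : ∀ g ∈ B, ∀ x ∈ pl B p (bl B a.1 b.1), ∀ y ∈ pl B p (bl B a.1 b.1), x ≠ y → x ∈ g →
      y ∈ g → g ⊆ pl B p (bl B a.1 b.1) :=
    fun g hg x hx y hy hxy h1 h2 => H.closed hp hL hpL hx hy hg h1 h2 hxy
  refine ⟨pl B p (bl B a.1 b.1), hcl, ?_, ?_, H.card_pl hL hpL, ?_, ?_⟩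
  · exact hcl l hl a.1 (hs (H.b1 hab)) p hpE a.2.2 a.2.1 pl'
  · exact hcl m hm b.1 (hs (H.b2 hab)) p hpE b.2.2 b.2.1 pm
  · intro S hS h1 h2 x hx
    unfold pl at hx
    rw [mem_biUnion] at hx
    obtain ⟨y, hy, h⟩ := hx
    have hyS := hS _ hL a.1 (h1 a.2.1) b.1 (h2 b.2.1) hab (H.b1 hab) (H.b2 hab) hy
    have hpy := H.ne_of hpL hy
    exact hS _ (H.bB hpy) p (h1 pl') y hyS hpy (H.b1 hpy) (H.b2 hpy) h
  · intro g hg h hh h1 h2
    exact H.meet2 hp hL hpL hg hh h1 h2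

theorem one_pt {l m : Finset V} (hl : l ∈ B) (hm : m ∈ B) (lm : l ≠ m) {x y w w' : V}
    (yl : y ∈ l) (ym : y ∉ m) (xy : y ≠ x) (wm : w ∈ m) (wm' : w' ∈ m) (h1 : x ∈ bl B y w)
    (h2 : x ∈ bl B y w') : w = w' := by
  have yw : y ≠ w := fun e => ym (e ▸ wm)
  have yw' : y ≠ w' := fun e => ym (e ▸ wm')
  have e : bl B y w = bl B y w' := H.un xy (H.bB yw) (H.bB yw') (H.b1 yw) h1 (H.b1 yw') h2
  have hne : bl B y w ≠ m := fun e => ym (e ▸ H.b1 yw)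
  exact H.pt (H.bB yw) hm hne (H.b2 yw) wm (e ▸ H.b2 yw') wm'

theorem persp_uniq {p : V} {l m : Finset V} (hl : l ∈ B) (hm : m ∈ B) (pl : p ∈ l) (pm : p ∈ m)
    (lm : l ≠ m) {f g : Pt p l ≃ Pt p m} (hf : Persp B p f) (hg : Persp B p g) {a a' : Pt p l}
    (haa : a ≠ a') (h1 : f a = g a) (h2 : f a' = g a') : f = g := by
  obtain ⟨x, xl, xm, hx⟩ := hf
  obtain ⟨y, yl, ym, hy⟩ := hg
  have hne : ∀ (b : Pt p l) (c : Pt p m), b.1 ≠ c.1 := fun b c => H.ptne hl hm lm pl pm b c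
  have hbl : bl B a.1 (f a).1 ≠ bl B a'.1 (f a').1 := by
    intro e
    have haa' : a.1 ≠ a'.1 := fun e => haa (Subtype.ext e)
    have e1 : bl B a.1 (f a).1 = l := H.un haa' (H.bB (hne _ _)) hl (H.b1 (hne _ _))
      (e ▸ H.b1 (hne _ _)) a.2.1 a'.2.1
    have hin : (f a).1 ∈ l :=
      Eq.subst (motive := fun s => (f a).1 ∈ s) e1 (H.b2 (hne _ _))
    exact H.ptne hl hm lm pl pm ⟨(f a).1, hin, (f a).2.2⟩ (f a) rfl
  have hxy : x = y := H.pt (H.bB (hne _ _)) (H.bB (hne _ _)) hbl (hx a) (hx a')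
    (by rw [h1]; exact hy a) (by rw [h2]; exact hy a')
  subst hxy
  refine Equiv.ext fun b => Subtype.ext ?_
  have hbm : b.1 ∉ m := fun h => hne b ⟨b.1, h, b.2.2⟩ rfl
  have hbx : b.1 ≠ x := fun e => xl (e ▸ b.2.1)
  exact H.one_pt hl hm lm b.2.1 hbm hbx (f b).2.1 (g b).2.1 (hx b) (hy b)

theorem exists_persp {p : V} (hp : Veblen B p) {l m : Finset V} (hl : l ∈ B) (hm : m ∈ B)
    (pl' : p ∈ l) (pm : p ∈ m) (lm : l ≠ m) (a a' : Pt p l) (b b' : Pt p m) (haa : a ≠ a')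
    (hbb : b ≠ b') : ∃ f : Pt p l ≃ Pt p m, Persp B p f ∧ f a = b ∧ f a' = b' := by
  have hne : ∀ (b : Pt p l) (c : Pt p m), b.1 ≠ c.1 := fun b c => H.ptne hl hm lm pl' pm b c
  have hlm : ∀ b : Pt p l, b.1 ∉ m := fun b h => hne b ⟨b.1, h, b.2.2⟩ rfl
  have hml : ∀ c : Pt p m, c.1 ∉ l := fun c h => hne ⟨c.1, h, c.2.2⟩ c rfl
  obtain ⟨E, hE, lE, mE, _, _, hmeet⟩ := H.plane_ex hp hl hm pl' pm lm
  have haa' : a.1 ≠ a'.1 := fun e => haa (Subtype.ext e)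
  have hbb' : b.1 ≠ b'.1 := fun e => hbb (Subtype.ext e)
  obtain ⟨x, hx, hx'⟩ := hp l hl m hm lm pl' pm a.1 a.2.1 a'.1 a'.2.1 b.1 b.2.1 b'.1 b'.2.1
    a.2.2 a'.2.2 b.2.2 b'.2.2 _ (H.bB (hne a b)) _ (H.bB (hne a' b')) (H.b1 (hne a b))
    (H.b2 (hne a b)) (H.b1 (hne a' b')) (H.b2 (hne a' b'))
  have xl : x ∉ l := by
    intro h
    have e1 : bl B a.1 b.1 ≠ l := fun e => hml b (e ▸ H.b2 (hne a b))
    have e2 : bl B a'.1 b'.1 ≠ l := fun e => hml b' (e ▸ H.b2 (hne a' b'))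
    have h1 := H.pt (H.bB (hne a b)) hl e1 (H.b1 (hne a b)) a.2.1 hx h
    have h2 := H.pt (H.bB (hne a' b')) hl e2 (H.b1 (hne a' b')) a'.2.1 hx' h
    exact haa' (h1.trans h2.symm)
  have xm : x ∉ m := by
    intro h
    have e1 : bl B a.1 b.1 ≠ m := fun e => hlm a (e ▸ H.b1 (hne a b))
    have e2 : bl B a'.1 b'.1 ≠ m := fun e => hlm a' (e ▸ H.b1 (hne a' b'))
    have h1 := H.pt (H.bB (hne a b)) hm e1 (H.b2 (hne a b)) b.2.1 hx h
    have h2 := H.pt (H.bB (hne a' b')) hm e2 (H.b2 (hne a' b')) b'.2.1 hx' h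
    exact hbb' (h1.trans h2.symm)
  have xE : x ∈ E := hE _ (H.bB (hne a b)) a.1 (lE a.2.1) b.1 (mE b.2.1) (hne a b)
    (H.b1 (hne a b)) (H.b2 (hne a b)) hx
  have ex1 : ∀ c : Pt p l, ∃ w : Pt p m, x ∈ bl B c.1 w.1 := by
    intro c
    have hcx : c.1 ≠ x := fun e => xl (e ▸ c.2.1)
    obtain ⟨w, h1, h2⟩ := hmeet _ (H.bB hcx) m hm (hE _ (H.bB hcx) c.1 (lE c.2.1) x xE hcx
      (H.b1 hcx) (H.b2 hcx)) mE
    have hwp : w ≠ p := by
      rintro rfl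
      have e : bl B c.1 x = l := H.un c.2.2 (H.bB hcx) hl (H.b1 hcx) h1 c.2.1 pl'
      exact xl (e ▸ H.b2 hcx)
    have hcw : c.1 ≠ w := fun e => hlm c (e ▸ h2)
    refine ⟨⟨w, h2, hwp⟩, ?_⟩
    show x ∈ bl B c.1 w
    rw [H.bl_eq hcw (H.bB hcx) (H.b1 hcx) h1]
    exact H.b2 hcx
  have ex2 : ∀ c : Pt p m, ∃ w : Pt p l, x ∈ bl B w.1 c.1 := by
    intro c
    have hcx : c.1 ≠ x := fun e => xm (e ▸ c.2.1)
    obtain ⟨w, h1, h2⟩ := hmeet _ (H.bB hcx) l hl (hE _ (H.bB hcx) c.1 (mE c.2.1) x xE hcx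
      (H.b1 hcx) (H.b2 hcx)) lE
    have hwp : w ≠ p := by
      rintro rfl
      have e : bl B c.1 x = m := H.un c.2.2 (H.bB hcx) hm (H.b1 hcx) h1 c.2.1 pm
      exact xm (e ▸ H.b2 hcx)
    have hcw : c.1 ≠ w := fun e => hml c (e ▸ h2)
    refine ⟨⟨w, h2, hwp⟩, ?_⟩
    show x ∈ bl B w c.1
    rw [H.bl_eq hcw.symm (H.bB hcx) h1 (H.b1 hcx)]
    exact H.b2 hcx
  choose f hf using ex1
  choose g hg using ex2
  have u1 : ∀ (c : Pt p l) (w w' : Pt p m), x ∈ bl B c.1 w.1 → x ∈ bl B c.1 w'.1 → w = w' := by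
    intro c w w' h1 h2
    have hcx : c.1 ≠ x := fun e => xl (e ▸ c.2.1)
    exact Subtype.ext (H.one_pt hl hm lm c.2.1 (hlm c) hcx w.2.1 w'.2.1 h1 h2)
  have u2 : ∀ (c : Pt p m) (w w' : Pt p l), x ∈ bl B w.1 c.1 → x ∈ bl B w'.1 c.1 → w = w' := by
    intro c w w' h1 h2
    have hcx : c.1 ≠ x := fun e => xm (e ▸ c.2.1)
    rw [H.comm (hne w c)] at h1
    rw [H.comm (hne w' c)] at h2
    exact Subtype.ext (H.one_pt hm hl lm.symm c.2.1 (hml c) hcx w.2.1 w'.2.1 h1 h2)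
  refine ⟨⟨f, g, fun c => u2 (f c) _ _ (hg _) (hf c), fun c => u1 (g c) _ _ (hf _) (hg c)⟩,
    ⟨x, xl, xm, hf⟩, u1 a _ _ (hf a) hx, u1 a' _ _ (hf a') hx'⟩

/-- If all points of some block are Veblen points and the system is not a projective plane, then
`q` is a prime power. -/
theorem isPrimePow [Fintype V] {l : Finset V} (hl : l ∈ B) (hV : ∀ x ∈ l, Veblen B x)
    (hn : q ^ 2 + q + 1 < Fintype.card V) : IsPrimePow q := by
  classical
  have hq := H.hq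
  obtain ⟨p, pl'⟩ : l.Nonempty := by rw [← card_pos, H.size l hl]; omega
  have hp := hV p pl'
  have hbig : ∀ E : Finset V, E.card ≤ (q + 1) * q + 1 → ∃ z, z ∉ E := by
    intro E hE
    by_contra hc
    push Not at hc
    have h1 : E = univ := eq_univ_of_forall hc
    rw [h1, card_univ] at hE
    nlinarith
  obtain ⟨y, hy⟩ := hbig l (by rw [H.size l hl]; nlinarith)
  have hpy : p ≠ y := fun e => hy (e ▸ pl')
  obtain ⟨X, XB, pX, yX⟩ : ∃ X ∈ B, p ∈ X ∧ y ∈ X := ⟨_, H.bB hpy, H.b1 hpy, H.b2 hpy⟩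
  have lX : l ≠ X := fun e => hy (e ▸ yX)
  obtain ⟨E0, hE0, lE0, XE0, cE0, mi0, _⟩ := H.plane_ex hp hl XB pl' pX lX
  obtain ⟨z, hz⟩ := hbig E0 cE0.le
  have pz : p ≠ z := fun e => hz (e ▸ lE0 pl')
  obtain ⟨Y, YB, pY, zY⟩ : ∃ Y ∈ B, p ∈ Y ∧ z ∈ Y := ⟨_, H.bB pz, H.b1 pz, H.b2 pz⟩
  have lY : l ≠ Y := fun e => hz (lE0 (e ▸ zY))
  have XY : X ≠ Y := fun e => hz (XE0 (e ▸ zY))
  obtain ⟨E2, hE2, XE2, YE2, cE2, _, _⟩ := H.plane_ex hp XB YB pX pY XY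
  have l2 : ∀ c ∈ l, c ≠ p → c ∉ E2 := by
    intro c hc hcp h
    have h1 := hE2 l hl c h p (XE2 pX) hcp hc pl'
    have h2 := eq_of_subset_of_card_le (mi0 E2 hE2 h1 XE2) (by rw [cE0, cE2])
    exact hz (h2 ▸ YE2 zY)
  have hcomp : ∀ (f : Pt p X ≃ Pt p l) (g : Pt p l ≃ Pt p Y), Persp B p f → Persp B p g →
      Persp B p (f.trans g) := fun f g hf hg =>
    H.comp (fun c hc _ => hV c hc) XB hl YB pX pl' pY lX.symm lY XY hE2 XE2 YE2 l2 hf hg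
  have two : ∀ {L : Finset V}, L ∈ B → ∃ a a' : Pt p L, a ≠ a' := by
    intro L hL
    obtain ⟨a, _⟩ := H.ex_pt (p := p) hL p
    obtain ⟨a', ha'⟩ := H.ex_pt (p := p) hL a.1
    exact ⟨a, a', fun e => ha' (e ▸ rfl)⟩
  obtain ⟨a, a', haa⟩ := two hl
  obtain ⟨x, x', hxx⟩ := two XB
  obtain ⟨b, b', hbb⟩ := two YB
  obtain ⟨d0, hd0, _⟩ := H.exists_persp hp XB hl pX pl' lX.symm x x' a a' hxx haa
  obtain ⟨b0, hb0, _⟩ := H.exists_persp hp hl YB pl' pY lY a a' b b' haa hbb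
  let G : Subgroup (Equiv.Perm (Pt p l)) :=
    { carrier := {g | ∀ k : Pt p l ≃ Pt p Y, Persp B p k → Persp B p (g.trans k)}
      one_mem' := by
        intro k hk
        have : (1 : Equiv.Perm (Pt p l)).trans k = k := by ext a; simp
        rw [this]
        exact hk
      mul_mem' := by
        intro g h hg hh k hk
        have e : h.trans (g.trans k) = (g * h).trans k := by ext a; simp
        rw [← e]
        exact hh _ (hg _ hk)
      inv_mem' := by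
        intro g hg k hk
        obtain ⟨k', hk', h1, h2⟩ := H.exists_persp hp hl YB pl' pY lY a a' (k (g⁻¹ a)) (k (g⁻¹ a'))
          haa (fun e => haa (g⁻¹.injective (k.injective e)))
        have e : g.trans k' = k := by
          refine H.persp_uniq hl YB pl' pY lY (hg k' hk') hk (a := g⁻¹ a) (a' := g⁻¹ a')
            (fun e => haa (g⁻¹.injective e)) ?_ ?_
          · simp [h1]
          · simp [h2]
        have e2 : g⁻¹.trans k = k' := by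
          rw [← e]
          ext a
          simp
        rw [e2]
        exact hk' }
  haveI : Fintype (Pt p l) := by unfold Pt; infer_instance
  have hc : Fintype.card (Pt p l) = q := by
    have h1 : Fintype.card (Pt p l) = (l.filter fun a => a ≠ p).card := by
      unfold Pt
      rw [Fintype.card_subtype]
      refine congrArg card ?_
      ext a
      simp
    rw [h1, filter_ne' l p, card_erase_of_mem pl', H.size l hl]
    rfl
  rw [← hc]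
  refine sharp_two G (by rw [hc]; exact hq) ?_
  intro a a' c c' haa hcc
  obtain ⟨d, hd, h1, h2⟩ := H.exists_persp hp XB hl pX pl' lX.symm (d0.symm a) (d0.symm a') c c'
    (fun e => haa (d0.symm.injective e)) hcc
  refine ⟨d0.symm.trans d, ⟨?_, by simp [h1], by simp [h2]⟩, ?_⟩
  · intro k hk
    obtain ⟨k', hk', h3, h4⟩ := H.exists_persp hp hl YB pl' pY lY (d0 x) (d0 x') (k (d x))
      (k (d x')) (fun e => hxx (d0.injective e)) (fun e => hxx (d.injective (k.injective e)))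
    have e : d0.trans k' = d.trans k := by
      refine H.persp_uniq XB YB pX pY XY (hcomp _ _ hd0 hk') (hcomp _ _ hd hk) hxx ?_ ?_
      · simp [h3]
      · simp [h4]
    have e2 : (d0.symm.trans d).trans k = k' := by
      have : (d0.symm.trans d).trans k = d0.symm.trans (d.trans k) := by ext a; simp
      rw [this, ← e]
      ext a
      simp
    rw [e2]
    exact hk'
  · rintro g ⟨hg, h3, h4⟩
    have hg' : Persp B p (g.trans b0) := hg b0 hb0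
    have hd' : Persp B p ((d0.symm.trans d).trans b0) := by
      obtain ⟨k', hk', h5, h6⟩ := H.exists_persp hp hl YB pl' pY lY (d0 x) (d0 x') (b0 (d x))
        (b0 (d x')) (fun e => hxx (d0.injective e)) (fun e => hxx (d.injective (b0.injective e)))
      have e : d0.trans k' = d.trans b0 := by
        refine H.persp_uniq XB YB pX pY XY (hcomp _ _ hd0 hk') (hcomp _ _ hd hb0) hxx ?_ ?_
        · simp [h5]
        · simp [h6]
      have e2 : (d0.symm.trans d).trans b0 = k' := by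
        have : (d0.symm.trans d).trans b0 = d0.symm.trans (d.trans b0) := by ext a; simp
        rw [this, ← e]
        ext a
        simp
      rw [e2]
      exact hk'
    have e : g.trans b0 = (d0.symm.trans d).trans b0 :=
      H.persp_uniq hl YB pl' pY lY hg' hd' haa (by simp [h1, h3]) (by simp [h2, h4])
    have e3 := congrArg (fun t : Pt p l ≃ Pt p Y => t.trans b0.symm) e
    simp only [Equiv.trans_assoc, Equiv.self_trans_symm, Equiv.trans_refl] at e3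
    exact e3

end LS

end Pool.Agent.V11100.VB
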