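import Mathlib
import Pool.Agent.V11100.VB.Block

set_option autoImplicit false

/-!
# Few points that are not Veblen points
-/

namespace Pool.Agent.V11100.VB

open Finset

variable {V : Type} [DecidableEq V]

namespace LS

variable {B : Finset (Finset V)} {q : ℕ} (H : LS B q)
include H

theorem easy2 {r : V} {l m : Finset V} (hl : l ∈ B) (hm : m ∈ B) (hlm : l ≠ m) (hrl : r ∈ l)
    (hrm : r ∈ m) {a b c d y : V} (ha : a ∈ l) (hb : b ∈ l) (hc : c ∈ m) (hd : d ∈ m)
    (har : a ≠ r) (hbr : b ≠ r) {g h : Finset V} (hg : g ∈ B) (hh : h ∈ B)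
    (hag : a ∈ g) (hcg : c ∈ g) (hbh : b ∈ h) (hdh : d ∈ h) (hy : y ∈ l) (hyr : y ≠ r)
    (hV : Veblen B y) : ∃ w, w ∈ g ∧ w ∈ h := by
  have off : ∀ x ∈ l, x ≠ r → x ∉ m := fun x hx hxr h => hxr (H.pt hl hm hlm hx h hrl hrm)
  have hym := off y hy hyr
  have hac : a ≠ c := fun h => off a ha har (h ▸ hc)
  have hbd : b ≠ d := fun h => off b hb hbr (h ▸ hd)
  have hp := H.p_mem hm hym
  have hs := H.L_sub (B := B) (L := m) hym
  have h1 : l ⊆ pl B y m := H.closed hV hm hym hp (hs hrm) hl hy hrl hyr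
  have h2 : g ⊆ pl B y m := H.closed hV hm hym (h1 ha) (hs hc) hg hag hcg hac
  have h3 : h ⊆ pl B y m := H.closed hV hm hym (h1 hb) (hs hd) hh hbh hdh hbd
  exact H.meet2 hV hm hym hg hh h2 h3

theorem all_veblen2 [Fintype V] {W : Finset V} (hW : ∀ x, x ∈ W ↔ ¬ Veblen B x)
    (hc : q * W.card + 2 * q ≤ Fintype.card V - 1 + 2 * q ^ 2) (x : V) : Veblen B x := by
  by_contra hx
  have hx' := hx
  unfold Veblen at hx'
  push Not at hx'
  obtain ⟨l, hl, m, hm, hlm, hrl, hrm, a, ha, b, hb, c, hcm, d, hd, har, hbr, hcr, hdr, g, hg, h, hh,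
    hag, hcg, hbh, hdh, hcon⟩ := hx'
  have lW : l ⊆ W := by
    intro y hy
    rw [hW]
    by_cases hyr : y = x
    · rw [hyr]; exact hx
    intro hv
    obtain ⟨w, h1, h2⟩ := H.easy2 hl hm hlm hrl hrm ha hb hcm hd har hbr hg hh hag hcg hbh hdh hy
      hyr hv
    exact hcon w h1 h2
  have mW : m ⊆ W := by
    intro y hy
    rw [hW]
    by_cases hyr : y = x
    · rw [hyr]; exact hx
    intro hv
    obtain ⟨w, h1, h2⟩ := H.easy2 hm hl hlm.symm hrm hrl hcm hd ha hb hcr hdr hg hh hcg hag hdh hbh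
      hy hyr hv
    exact hcon w h1 h2
  have hint : l ∩ m = {x} := by
    ext y
    rw [mem_inter, mem_singleton]
    exact ⟨fun h => H.pt hl hm hlm h.1 h.2 hrl hrm, fun h => h ▸ ⟨hrl, hrm⟩⟩
  have hun : (l ∪ m).card = 2 * q + 1 := by
    have := card_union_add_card_inter l m
    rw [hint, card_singleton, H.size l hl, H.size m hm] at this
    omega
  set T := W \ (l ∪ m) with hT
  have hTc : T.card + (2 * q + 1) = W.card := by
    rw [hT, ← hun]
    exact card_sdiff_add_card_eq_card (union_subset lW mW)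
  have hsub : (univ.erase x : Finset V) ⊆
      ((l ∪ m).erase x) ∪ (T.biUnion fun w => (bl B x w).erase x) := by
    intro y hy
    have hxy : x ≠ y := (ne_of_mem_erase hy).symm
    rw [mem_union]
    by_cases hyl : y ∈ l ∪ m
    · exact Or.inl (mem_erase.2 ⟨hxy.symm, hyl⟩)
    right
    by_contra hcon2
    apply hx
    refine H.veblen_of_block (H.bB hxy) (H.b1 hxy) ?_
    intro w hw hwx
    by_contra hnw
    apply hcon2
    rw [mem_biUnion]
    refine ⟨w, ?_, ?_⟩
    · rw [hT, mem_sdiff]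
      refine ⟨(hW w).2 hnw, fun hwl => ?_⟩
      rw [mem_union] at hwl hyl
      push Not at hyl
      rcases hwl with h1 | h1
      · have e : bl B x y = l := H.un hwx (H.bB hxy) hl hw (H.b1 hxy) h1 hrl
        exact hyl.1 (e ▸ H.b2 hxy)
      · have e : bl B x y = m := H.un hwx (H.bB hxy) hm hw (H.b1 hxy) h1 hrm
        exact hyl.2 (e ▸ H.b2 hxy)
    · rw [mem_erase]
      refine ⟨hxy.symm, ?_⟩
      rw [H.bl_eq (Ne.symm hwx) (H.bB hxy) (H.b1 hxy) hw]
      exact H.b2 hxy
  have h3 := card_le_card hsub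
  rw [card_erase_of_mem (mem_univ x), card_univ] at h3
  have h4 : (T.biUnion fun w => (bl B x w).erase x).card ≤ T.card * q := by
    refine card_biUnion_le_card_mul _ _ _ fun w hw => ?_
    have hxw : x ≠ w := by
      rintro rfl
      rw [hT, mem_sdiff, mem_union] at hw
      exact hw.2 (Or.inl hrl)
    rw [card_erase_of_mem (H.b1 hxw), H.size _ (H.bB hxw)]
    simp
  have h5 : ((l ∪ m).erase x).card = 2 * q := by
    rw [card_erase_of_mem (mem_union_left _ hrl), hun]
    rfl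
  have h6 := h3.trans (card_union_le _ _)
  rw [h5] at h6
  have hq := H.hq
  have h7 : q * W.card = T.card * q + 2 * q ^ 2 + q := by
    rw [← hTc]; ring
  omega

end LS

end Pool.Agent.V11100.VB
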